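import Pool.Agent.H74.GE.Defs

/-!
# Two circuits: the definitions (helper34, MP_472c72_co)
-/

open scoped Classical

namespace Pool.Agent.H34TC

universe u
variable {V : Type u}

/-- `x` lies on the circuit `C` -/
def On (C : Finset (Sym2 V)) (x : V) : Prop := ∃ e ∈ C, x ∈ e

/-- The edges of weight one form two vertex-disjoint circuits `C₁`, `C₂` which together contain all
vertices, and exactly `m` edges join a vertex of `C₁` and a vertex of `C₂`. -/
structure TwoCircuits (G : SimpleGraph V) (w : Sym2 V → ℕ) (C₁ C₂ : Finset (Sym2 V)) (m : ℕ) :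
    Prop where
  circ₁ : GE.IsCircuit G C₁
  circ₂ : GE.IsCircuit G C₂
  disj : ∀ x, On C₁ x → ¬ On C₂ x
  cover : ∀ x, On C₁ x ∨ On C₂ x
  weight : ∀ e ∈ G.edgeSet, w e = 1 ↔ e ∈ C₁ ∨ e ∈ C₂
  cross : {e | e ∈ G.edgeSet ∧ ∃ x y, e = s(x, y) ∧ On C₁ x ∧ On C₂ y}.ncard = m

end Pool.Agent.H34TC
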