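import Pool.Agent.H34TC.Cover
import Pool.Agent.H34TC.Defs

/-!
# Assembling the proof (helper34)
-/

open Finset
open scoped Classical

namespace Pool.Agent.H34TC

universe u
variable {V : Type u}

/-- a circuit as a cyclic sequence -/
lemma cyc_param {G : SimpleGraph V} {C : Finset (Sym2 V)} (hC : GE.IsCircuit G C) :
    ∃ (a : ℕ) (φ : Fin (a + 1) → V), 2 ≤ a ∧ Function.Injective φ ∧
      (∀ i, G.Adj (φ i) (φ (i + 1))) ∧ ∀ e, e ∈ C ↔ ∃ i, e = s(φ i, φ (i + 1)) := by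
  obtain ⟨v, p, hp, rfl⟩ := hC
  have h3 := hp.three_le_length
  obtain ⟨a, ha⟩ : ∃ a, p.length = a + 1 := ⟨p.length - 1, by omega⟩
  have hsucc : ∀ i : Fin (a + 1), p.getVert (i + 1).val = p.getVert (i.val + 1) := by
    intro i
    by_cases hi : i = Fin.last a
    · subst hi
      rw [Fin.last_add_one, Fin.val_zero, Fin.val_last, SimpleGraph.Walk.getVert_zero, ← ha,
        SimpleGraph.Walk.getVert_length]
    · rw [Fin.val_add_one_of_lt (Fin.lt_last_iff_ne_last.2 hi)]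
  refine ⟨a, fun i => p.getVert i.val, by omega, ?_, ?_, ?_⟩
  · intro i j hij
    have hi := i.isLt
    have hj := j.isLt
    have := hp.getVert_injOn' (by simp only [Set.mem_ofPred_eq]; omega)
      (by simp only [Set.mem_ofPred_eq]; omega) hij
    exact Fin.ext this
  · intro i
    show G.Adj (p.getVert i.val) (p.getVert (i + 1).val)
    rw [hsucc]
    exact p.adj_getVert_succ (by rw [ha]; exact i.isLt)
  · intro e
    rw [List.mem_toFinset]
    induction e using Sym2.ind with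
    | _ x y =>
      rw [← SimpleGraph.Walk.adj_toSubgraph_iff_mem_edges, SimpleGraph.Walk.toSubgraph_adj_iff]
      constructor
      · rintro ⟨i, h1, h2⟩
        refine ⟨⟨i, by omega⟩, ?_⟩
        show s(x, y) = s(p.getVert i, p.getVert ((⟨i, by omega⟩ : Fin (a + 1)) + 1).val)
        rw [hsucc]
        exact h1.symm
      · rintro ⟨i, h⟩
        replace h : s(x, y) = s(p.getVert i.val, p.getVert (i + 1).val) := h
        rw [hsucc] at h
        exact ⟨i.val, h.symm, by rw [ha]; exact i.isLt⟩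

/-- the same with a prescribed base point -/
lemma cyc_param' {G : SimpleGraph V} {C : Finset (Sym2 V)} (hC : GE.IsCircuit G C) {x : V}
    (hx : ∃ e ∈ C, x ∈ e) :
    ∃ (a : ℕ) (φ : Fin (a + 1) → V), 2 ≤ a ∧ Function.Injective φ ∧
      (∀ i, G.Adj (φ i) (φ (i + 1))) ∧ (∀ e, e ∈ C ↔ ∃ i, e = s(φ i, φ (i + 1))) ∧ φ 0 = x := by
  obtain ⟨a, φ, h2, hinj, hadj, hmem⟩ := cyc_param hC
  have hi : ∃ i, φ i = x := by
    obtain ⟨e, he, hxe⟩ := hx
    obtain ⟨i, rfl⟩ := (hmem e).1 he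
    rcases Sym2.mem_iff.1 hxe with h | h
    · exact ⟨i, h.symm⟩
    · exact ⟨i + 1, h.symm⟩
  obtain ⟨i₀, hi₀⟩ := hi
  refine ⟨a, fun i => φ (i + i₀), h2, ?_, ?_, ?_, ?_⟩
  · intro i j hij
    exact add_right_cancel (hinj hij)
  · intro i
    have : i + 1 + i₀ = i + i₀ + 1 := by abel
    simp only [this]
    exact hadj _
  · intro e
    rw [hmem]
    constructor
    · rintro ⟨i, rfl⟩
      refine ⟨i - i₀, ?_⟩
      have h1 : i - i₀ + i₀ = i := by abel
      have h2 : i - i₀ + 1 + i₀ = i + 1 := by abel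
      show s(φ i, φ (i + 1)) = s(φ (i - i₀ + i₀), φ (i - i₀ + 1 + i₀))
      rw [h1, h2]
    · rintro ⟨i, rfl⟩
      refine ⟨i + i₀, ?_⟩
      have : i + 1 + i₀ = i + i₀ + 1 := by abel
      show s(φ (i + i₀), φ (i + 1 + i₀)) = s(φ (i + i₀), φ (i + i₀ + 1))
      rw [this]
  · simp [hi₀]

lemma on_iff {a : ℕ} {C : Finset (Sym2 V)} {φ : Fin (a + 1) → V}
    (h : ∀ e, e ∈ C ↔ ∃ i, e = s(φ i, φ (i + 1))) (x : V) : On C x ↔ ∃ i, φ i = x := by
  constructor
  · rintro ⟨e, he, hxe⟩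
    obtain ⟨i, rfl⟩ := (h e).1 he
    rcases Sym2.mem_iff.1 hxe with h | h
    · exact ⟨i, h.symm⟩
    · exact ⟨i + 1, h.symm⟩
  · rintro ⟨i, rfl⟩
    exact ⟨_, (h _).2 ⟨i, rfl⟩, Sym2.mem_mk_left _ _⟩

/-- the successor along the circles -/
def nxt (a b : ℕ) : Equiv.Perm (TT a b) := Equiv.sumCongr (Equiv.addRight 1) (Equiv.addRight 1)

lemma nxt_symm {a b : ℕ} (v : TT a b) : (nxt a b).symm v = prd v := by
  rcases v with i | j <;> simp [nxt, prd, sub_eq_add_neg]

lemma nxt_inl {a b : ℕ} (i : Fin (a + 1)) : nxt a b (Sum.inl i) = Sum.inl (i + 1) := rfl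
lemma nxt_inr {a b : ℕ} (i : Fin (b + 1)) : nxt a b (Sum.inr i) = Sum.inr (i + 1) := rfl

lemma nxt_nxt {a b : ℕ} (ha : 2 ≤ a) (hb : 2 ≤ b) (v : TT a b) : nxt a b (nxt a b v) ≠ v := by
  have key : ∀ (n : ℕ), 2 ≤ n → ∀ i : Fin (n + 1), i + 1 + 1 ≠ i := by
    intro n hn i h
    rw [add_assoc] at h
    have h2 : (1 : Fin (n + 1)) + 1 = 0 := by
      have := congrArg (fun x => x - i) h
      simpa [add_sub_cancel_left] using this
    have h3 := congrArg Fin.val h2
    rw [Fin.val_add, Fin.val_zero] at h3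
    have h4 : (1 : Fin (n + 1)).val = 1 := by
      rw [Fin.val_one']; exact Nat.mod_eq_of_lt (by omega)
    rw [h4, Nat.mod_eq_of_lt (by omega)] at h3
    omega
  rcases v with i | j
  · rw [nxt_inl, nxt_inl]
    intro h
    exact key a ha i (Sum.inl_injective h)
  · rw [nxt_inr, nxt_inr]
    intro h
    exact key b hb j (Sum.inr_injective h)

end Pool.Agent.H34TC
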