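import Pool.Agent.H34TC.Par

/-!
# Chord systems on two circles (helper34, MP_472c72_co)
-/

open Finset

namespace Pool.Agent.H34TC

/-- the colours -/
abbrev F4 := ZMod 2 × ZMod 2

lemma F4_add_self (x : F4) : x + x = 0 := by revert x; decide

variable {a b : ℕ}

/-- the vertices of the two circles -/
abbrev TT (a b : ℕ) := Fin (a + 1) ⊕ Fin (b + 1)

/-- the predecessor along the circle -/
def prd : TT a b → TT a b
  | Sum.inl i => Sum.inl (i - 1)
  | Sum.inr j => Sum.inr (j - 1)

/-- the position in the word -/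
def pos : TT a b → ℕ
  | Sum.inl i => i.val
  | Sum.inr j => a + 1 + j.val

lemma pos_inj {v w : TT a b} (h : pos v = pos w) : v = w := by
  rcases v with i | i <;> rcases w with j | j <;> simp only [pos] at h
  · exact congrArg _ (Fin.ext h)
  · have := i.isLt; omega
  · have := j.isLt; omega
  · exact congrArg _ (Fin.ext (by omega))

/-- a colouring of the edges of the two circles with the same pair of colours at both ends of every
chord -/
def Good (μ : TT a b → TT a b) : Prop :=
  ∃ f : TT a b → F4, ∀ v, f v ≠ f (prd v) ∧ s(f v, f (prd v)) = s(f (μ v), f (prd (μ v)))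

/-- reversal of the second circle -/
def rho : TT a b → TT a b
  | Sum.inl i => Sum.inl i
  | Sum.inr j => Sum.inr (-j)

lemma rho_rho (v : TT a b) : rho (rho v) = v := by
  rcases v with i | j <;> simp [rho]

/-- not one of the two base points -/
def nz (v : TT a b) : Prop := v ≠ Sum.inl 0 ∧ v ≠ Sum.inr 0

instance : DecidablePred (nz : TT a b → Prop) := fun v => by unfold nz; infer_instance

lemma rho_nz (v : TT a b) : nz (rho v) ↔ nz v := by
  rcases v with i | j
  · simp [nz, rho]
  · simp [nz, rho]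

lemma good_rho {μ : TT a b → TT a b} (h : Good (fun v => rho (μ (rho v)))) : Good μ := by
  obtain ⟨f, hf⟩ := h
  refine ⟨fun v => Sum.elim (fun i => f (Sum.inl i)) (fun j => f (Sum.inr (-j - 1))) v, ?_⟩
  have key : ∀ v : TT a b,
      s((Sum.elim (fun i => f (Sum.inl i)) (fun j => f (Sum.inr (-j - 1))) v : F4),
        (Sum.elim (fun i => f (Sum.inl i)) (fun j => f (Sum.inr (-j - 1))) (prd v) : F4)) =
      s(f (rho v), f (prd (rho v))) := by
    intro v
    rcases v with i | j
    · rfl
    · simp only [prd, rho, Sum.elim_inr]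
      have h : -(j - 1) - 1 = -j := by abel
      rw [h, Sym2.eq_swap]
  intro v
  have h1 := hf (rho v)
  simp only [rho_rho] at h1
  refine ⟨?_, ?_⟩
  · intro h2
    have h3 := key v
    simp only at h2
    rw [h2] at h3
    have h4 : s(f (rho v), f (prd (rho v))).IsDiag := by
      rw [← h3]; exact Sym2.mk_isDiag_iff.2 rfl
    exact h1.1 (Sym2.mk_isDiag_iff.1 h4)
  · have h3 := key v
    have h4 := key (μ v)
    simp only at h3 h4 ⊢
    rw [h3, h4]
    exact h1.2

/-! ### From a valid colouring to a good one -/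

/-- `z` lies strictly between `x` and `y` -/
def btw (x y z : ℕ) : Prop := (x < z ∧ z < y) ∨ (y < z ∧ z < x)

instance (x y z : ℕ) : Decidable (btw x y z) := by unfold btw; infer_instance

lemma btw_comm (x y z : ℕ) : btw x y z ↔ btw y x z := by unfold btw; tauto

/-- prefix sums -/
def pf (c : TT a b → F4) (v : TT a b) : F4 :=
  ∑ t ∈ univ.filter (fun t => nz t ∧ pos t ≤ pos v), c t

lemma F4_eq {x y z : F4} (h : x + y = z) : y = x + z := by
  subst h; rw [← add_assoc, F4_add_self, zero_add]

lemma nz_mu {μ : TT a b → TT a b} (hμ : ∀ v, μ (μ v) = v) (hz : μ (Sum.inl 0) = Sum.inr 0)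
    {v : TT a b} (hv : nz v) : nz (μ v) := by
  refine ⟨fun h => hv.2 ?_, fun h => hv.1 ?_⟩
  · rw [← hμ v, h, hz]
  · rw [← hμ v, h, ← hz, hμ]

lemma total_zero {μ : TT a b → TT a b} (hμ : ∀ v, μ (μ v) = v) (hμ' : ∀ v, μ v ≠ v)
    (hz : μ (Sum.inl 0) = Sum.inr 0) (c : TT a b → F4) (hc : ∀ v, c (μ v) = c v) :
    ∑ t ∈ univ.filter (fun t : TT a b => nz t), c t = 0 := by
  refine Finset.sum_involution (fun t _ => μ t) ?_ ?_ ?_ ?_
  · intro t _; rw [hc t]; exact F4_add_self _
  · intro t _ _; exact hμ' t
  · intro t ht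
    simp only [mem_filter, mem_univ, true_and] at ht ⊢
    exact nz_mu hμ hz ht
  · intro t _; exact hμ t

lemma pf_succ (c : TT a b → F4) {v w : TT a b} (hv : nz v) (h : pos v = pos w + 1) :
    pf c v + pf c w = c v := by
  have h1 : univ.filter (fun t : TT a b => nz t ∧ pos t ≤ pos v) =
      insert v (univ.filter fun t => nz t ∧ pos t ≤ pos w) := by
    ext t
    simp only [mem_filter, mem_univ, true_and, mem_insert]
    constructor
    · rintro ⟨h1, h2⟩
      by_cases h3 : pos t = pos v
      · exact Or.inl (pos_inj h3)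
      · exact Or.inr ⟨h1, by omega⟩
    · rintro (rfl | ⟨h1, h2⟩)
      · exact ⟨hv, le_rfl⟩
      · exact ⟨h1, by omega⟩
  have h2 : v ∉ univ.filter fun t : TT a b => nz t ∧ pos t ≤ pos w := by
    simp only [mem_filter, mem_univ, true_and, not_and]
    intro _; omega
  unfold pf
  rw [h1, Finset.sum_insert h2, add_assoc, F4_add_self, add_zero]

lemma pf_prd {μ : TT a b → TT a b} (hμ : ∀ v, μ (μ v) = v) (hμ' : ∀ v, μ v ≠ v)
    (hz : μ (Sum.inl 0) = Sum.inr 0) (c : TT a b → F4) (hc : ∀ v, c (μ v) = c v)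
    (hs : c (Sum.inl 0) = ∑ i ∈ univ.filter (fun i : Fin (a + 1) => i ≠ 0), c (Sum.inl i))
    (v : TT a b) : pf c v + pf c (prd v) = c v := by
  have hl : ∀ w : TT a b, pos w = a ∨ pos w = a + 1 → pf c w = c (Sum.inl 0) := by
    intro w hw
    rw [hs]
    unfold pf
    have hm : ∑ i ∈ univ.filter (fun i : Fin (a + 1) => i ≠ 0), c (Sum.inl i) =
        ∑ t ∈ (univ.filter fun i : Fin (a + 1) => i ≠ 0).map
          (⟨Sum.inl, Sum.inl_injective⟩ : Fin (a + 1) ↪ TT a b), c t := by
      rw [Finset.sum_map]; rfl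
    rw [hm]
    refine Finset.sum_congr ?_ fun _ _ => rfl
    ext t
    simp only [mem_filter, mem_univ, true_and, mem_map, Function.Embedding.coeFn_mk]
    constructor
    · rintro ⟨h1, h2⟩
      rcases t with i | j
      · refine ⟨i, ?_, rfl⟩
        rintro rfl; exact h1.1 rfl
      · exfalso
        rw [show pos (Sum.inr j : TT a b) = a + 1 + j.val from rfl] at h2
        apply h1.2
        congr 1
        ext
        simp only [Fin.val_zero]
        omega
    · rintro ⟨i, hi, rfl⟩
      refine ⟨⟨?_, ?_⟩, ?_⟩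
      · intro h; exact hi (Sum.inl_injective h)
      · simp
      · have := i.isLt
        rw [show pos (Sum.inl i : TT a b) = i.val from rfl]
        omega
  rcases v with i | j
  · by_cases hi : i = 0
    · subst hi
      have h1 : pf c (Sum.inl 0 : TT a b) = 0 := by
        unfold pf
        rw [Finset.filter_eq_empty_iff.2, Finset.sum_empty]
        rintro t _ ⟨h1, h2⟩
        simp only [pos, Fin.val_zero, Nat.le_zero] at h2
        exact h1.1 (pos_inj (by simpa [pos] using h2))
      rw [h1, zero_add]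
      apply hl
      left
      simp [prd, pos, zero_sub, Fin.coe_neg_one]
    · refine pf_succ c ⟨fun h => hi (Sum.inl_injective h), by simp⟩ ?_
      simp only [prd, pos]
      rw [Fin.val_sub_one_of_ne_zero hi]
      have : i.val ≠ 0 := fun h => hi (Fin.ext h)
      omega
  · by_cases hj : j = 0
    · subst hj
      have h1 : pf c (Sum.inr 0 : TT a b) = c (Sum.inl 0) := hl _ (Or.inr (by simp [pos]))
      have h2 : pf c (prd (Sum.inr 0) : TT a b) = 0 := by
        rw [← total_zero hμ hμ' hz c hc]
        unfold pf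
        congr 1
        ext t
        simp only [mem_filter, mem_univ, true_and, and_iff_left_iff_imp]
        intro _
        rcases t with i | j
        · have := i.isLt
          simp only [pos, prd]; omega
        · have := j.isLt
          simp only [pos, prd, zero_sub, Fin.coe_neg_one]
          omega
      rw [h1, h2, add_zero, ← hc, hz]
    · refine pf_succ c ⟨by simp, fun h => hj (Sum.inr_injective h)⟩ ?_
      simp only [prd, pos]
      rw [Fin.val_sub_one_of_ne_zero hj]
      have : j.val ≠ 0 := fun h => hj (Fin.ext h)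
      omega

lemma pf_lt {μ : TT a b → TT a b} (hμ : ∀ v, μ (μ v) = v)
    (hz : μ (Sum.inl 0) = Sum.inr 0) (c : TT a b → F4) {v : TT a b} (hv : nz v)
    (hlt : pos v < pos (μ v)) : pf c v + pf c (μ v) =
      (∑ t ∈ univ.filter (fun t => nz t ∧ btw (pos v) (pos (μ v)) (pos t)), c t) + c (μ v) := by
  have h1 : univ.filter (fun t : TT a b => nz t ∧ pos t ≤ pos (μ v)) =
      (univ.filter fun t => nz t ∧ pos t ≤ pos v) ∪
      insert (μ v) (univ.filter fun t => nz t ∧ btw (pos v) (pos (μ v)) (pos t)) := by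
    ext t
    simp only [mem_filter, mem_univ, true_and, mem_insert, mem_union]
    constructor
    · rintro ⟨h1, h2⟩
      by_cases h3 : pos t ≤ pos v
      · exact Or.inl ⟨h1, h3⟩
      · by_cases h4 : pos t = pos (μ v)
        · exact Or.inr (Or.inl (pos_inj h4))
        · exact Or.inr (Or.inr ⟨h1, Or.inl ⟨by omega, by omega⟩⟩)
    · rintro (⟨h1, h2⟩ | rfl | ⟨h1, h2 | h2⟩)
      · exact ⟨h1, by omega⟩
      · exact ⟨nz_mu hμ hz hv, le_rfl⟩
      · exact ⟨h1, by omega⟩
      · omega
  have h2 : Disjoint (univ.filter fun t : TT a b => nz t ∧ pos t ≤ pos v)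
      (insert (μ v) (univ.filter fun t => nz t ∧ btw (pos v) (pos (μ v)) (pos t))) := by
    rw [Finset.disjoint_left]
    intro t h3 h4
    simp only [mem_filter, mem_univ, true_and, mem_insert] at h3 h4
    rcases h4 with rfl | ⟨_, h5 | h5⟩ <;> omega
  have h3 : μ v ∉ univ.filter fun t : TT a b => nz t ∧ btw (pos v) (pos (μ v)) (pos t) := by
    rw [mem_filter]
    rintro ⟨_, _, h⟩
    unfold btw at h
    omega
  unfold pf
  rw [h1, Finset.sum_union h2, Finset.sum_insert h3, ← add_assoc, F4_add_self, zero_add, add_comm]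

lemma sym_eq {x x' y y' c : F4} (h1 : x + x' = c) (h2 : y + y' = c) (h3 : x + y = 0 ∨ x + y = c) :
    s(x, x') = s(y, y') := by
  rw [Sym2.eq_iff]
  rcases h3 with h3 | h3
  · left
    have e1 := F4_eq h3
    rw [add_zero] at e1
    subst e1
    exact ⟨rfl, by rw [F4_eq h1, F4_eq h2]⟩
  · right
    have e1 := F4_eq h3
    have e2 := F4_eq h1
    have e3 := F4_eq h2
    refine ⟨?_, ?_⟩
    · rw [e3, e1, add_assoc, F4_add_self, add_zero]
    · rw [e2, e1]

theorem good_of_valid {μ : TT a b → TT a b} (hμ : ∀ v, μ (μ v) = v) (hμ' : ∀ v, μ v ≠ v)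
    (hz : μ (Sum.inl 0) = Sum.inr 0) (c : TT a b → F4) (hc : ∀ v, c (μ v) = c v)
    (hc0 : ∀ v, c v ≠ 0)
    (hs : c (Sum.inl 0) = ∑ i ∈ univ.filter (fun i : Fin (a + 1) => i ≠ 0), c (Sum.inl i))
    (hv : ∀ u, nz u →
      (∑ t ∈ univ.filter (fun t => nz t ∧ btw (pos u) (pos (μ u)) (pos t)), c t) = 0 ∨
      (∑ t ∈ univ.filter (fun t => nz t ∧ btw (pos u) (pos (μ u)) (pos t)), c t) = c u) :
    Good μ := by
  have e1 := pf_prd hμ hμ' hz c hc hs
  have key : ∀ v, nz v → pos v < pos (μ v) → pf c v + pf c (μ v) = 0 ∨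
      pf c v + pf c (μ v) = c v := by
    intro v hnz hlt
    rw [pf_lt hμ hz c hnz hlt, hc v]
    rcases hv v hnz with h | h
    · right; rw [h, zero_add]
    · left; rw [h, F4_add_self]
  refine ⟨pf c, fun v => ⟨?_, ?_⟩⟩
  · intro h
    have := e1 v
    rw [h, F4_add_self] at this
    exact hc0 v this.symm
  · by_cases hnz : nz v
    · have h2 := e1 (μ v)
      rw [hc] at h2
      refine sym_eq (e1 v) h2 ?_
      have hne : pos v ≠ pos (μ v) := fun h => hμ' v (pos_inj h).symm
      rcases lt_or_gt_of_ne hne with h | h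
      · exact key v hnz h
      · have h3 := key (μ v) (nz_mu hμ hz hnz) (by rw [hμ]; exact h)
        rw [hμ, hc, add_comm] at h3
        exact h3
    · have h00 : pf c (Sum.inl 0 : TT a b) = 0 := by
        unfold pf
        rw [Finset.filter_eq_empty_iff.2, Finset.sum_empty]
        rintro t _ ⟨h1, h2⟩
        simp only [pos, Fin.val_zero, Nat.le_zero] at h2
        exact h1.1 (pos_inj (by simpa [pos] using h2))
      have h01 := e1 (Sum.inl 0)
      have h02 := e1 (Sum.inr 0)
      have h03 : c (Sum.inr 0) = c (Sum.inl 0) := by rw [← hz, hc]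
      have h04 : pf c (Sum.inr 0 : TT a b) = pf c (prd (Sum.inl 0) : TT a b) := by
        unfold pf
        congr 1
        ext t
        simp only [mem_filter, mem_univ, true_and, and_congr_right_iff]
        intro ht
        have hp : pos (prd (Sum.inl 0) : TT a b) = a := by
          simp [prd, pos, zero_sub, Fin.coe_neg_one]
        have hp2 : pos (Sum.inr 0 : TT a b) = a + 1 := by simp [pos]
        rw [hp, hp2]
        have : pos t ≠ a + 1 := by
          intro h
          exact ht.2 (pos_inj (by rw [h, hp2]))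
        omega
      have hfin : s(pf c (Sum.inl 0 : TT a b), pf c (prd (Sum.inl 0) : TT a b)) =
          s(pf c (Sum.inr 0 : TT a b), pf c (prd (Sum.inr 0) : TT a b)) := by
        refine sym_eq h01 (by rw [h02, h03]) (Or.inr ?_)
        rw [h04, h01]
      have hcase : v = Sum.inl 0 ∨ v = Sum.inr 0 := by
        unfold nz at hnz; tauto
      rcases hcase with rfl | rfl
      · rw [hz]; exact hfin
      · have : μ (Sum.inr 0) = Sum.inl 0 := by rw [← hz, hμ]
        rw [this]; exact hfin.symm

end Pool.Agent.H34TC
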