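import Pool.Agent.H34TC.Chord

/-!
# Existence of a good colouring if the number of cross chords is `3` modulo `4` (helper34)
-/

open Finset

namespace Pool.Agent.H34TC

variable {a b : ℕ}

/-- representatives of the chords other than the base chord -/
abbrev Rep (μ : TT a b → TT a b) := {v : TT a b // nz v ∧ pos v < pos (μ v)}

/-- indicator of `btw` -/
def bt (x y z : ℕ) : ZMod 2 := if btw x y z then 1 else 0

/-- the interlace matrix for a position function -/
def AA (μ : TT a b → TT a b) (P : TT a b → ℕ) (u r : Rep μ) : ZMod 2 :=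
  bt (P u) (P (μ u)) (P r) + bt (P u) (P (μ u)) (P (μ r))

lemma bt_symm {x y z t : ℕ} (h1 : x ≠ z) (h2 : x ≠ t) (h3 : y ≠ z) (h4 : y ≠ t) :
    bt x y z + bt x y t = bt z t x + bt z t y := by
  unfold bt
  by_cases e1 : btw x y z <;> by_cases e2 : btw x y t <;> by_cases e3 : btw z t x <;>
    by_cases e4 : btw z t y <;> simp only [e1, e2, e3, e4, if_true, if_false] <;>
    first | decide | (exfalso; unfold btw at e1 e2 e3 e4; omega)

lemma bt_rev {a N x y z t x' y' z' t' : ℕ} (h1 : x ≠ z) (h2 : x ≠ t) (h3 : y ≠ z) (h4 : y ≠ t)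
    (hxy : x < y) (hzt : z < t)
    (hx : (x ≤ a ∧ x' = x) ∨ (a < x ∧ x' + x = N ∧ a < x'))
    (hy : (y ≤ a ∧ y' = y) ∨ (a < y ∧ y' + y = N ∧ a < y'))
    (hz : (z ≤ a ∧ z' = z) ∨ (a < z ∧ z' + z = N ∧ a < z'))
    (ht : (t ≤ a ∧ t' = t) ∨ (a < t ∧ t' + t = N ∧ a < t')) :
    bt x' y' z' + bt x' y' t' = bt x y z + bt x y t +
      if (x ≤ a ∧ a < y) ∧ (z ≤ a ∧ a < t) then 1 else 0 := by
  unfold bt
  by_cases e1 : btw x y z <;> by_cases e2 : btw x y t <;> by_cases e3 : btw x' y' z' <;>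
    by_cases e4 : btw x' y' t' <;> by_cases e5 : (x ≤ a ∧ a < y) ∧ (z ≤ a ∧ a < t) <;>
    simp only [e1, e2, e3, e4, e5, if_true, if_false] <;>
    first | decide | (exfalso; unfold btw at e1 e2 e3 e4; omega)

section

variable {μ : TT a b → TT a b} (hμ : ∀ v, μ (μ v) = v) (hμ' : ∀ v, μ v ≠ v)
  (hz : μ (Sum.inl 0) = Sum.inr 0)

include hμ in
lemma rep_ne {u r : Rep μ} (h : u ≠ r) : u.1 ≠ r.1 ∧ u.1 ≠ μ r.1 ∧ μ u.1 ≠ r.1 ∧ μ u.1 ≠ μ r.1 := by
  have hu := u.2.2
  have hr := r.2.2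
  have h0 : u.1 ≠ r.1 := fun e => h (Subtype.ext e)
  refine ⟨h0, ?_, ?_, ?_⟩
  · intro e
    rw [e, hμ] at hu
    omega
  · intro e
    rw [← e, hμ] at hr
    omega
  · intro e
    apply h0
    rw [← hμ u.1, e, hμ]

include hμ in
lemma AA_symm {P : TT a b → ℕ} (hP : Function.Injective P) (u r : Rep μ) :
    AA μ P u r = AA μ P r u := by
  by_cases h : u = r
  · rw [h]
  · obtain ⟨h1, h2, h3, h4⟩ := rep_ne hμ h
    exact bt_symm (fun e => h1 (hP e)) (fun e => h2 (hP e)) (fun e => h3 (hP e))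
      (fun e => h4 (hP e))

/-- the cross chords -/
def BB (μ : TT a b → TT a b) : Finset (Rep μ) :=
  univ.filter fun r => pos r.1 ≤ a ∧ a < pos (μ r.1)

lemma pos_rho {v : TT a b} (hv : nz v) : (pos v ≤ a ∧ pos (rho v) = pos v) ∨
    (a < pos v ∧ pos (rho v) + pos v = 2 * a + b + 3 ∧ a < pos (rho v)) := by
  rcases v with i | j
  · left
    have := i.isLt
    exact ⟨by simp only [pos]; omega, rfl⟩
  · right
    have hj : j ≠ 0 := fun h => hv.2 (by rw [h])
    have hj2 := j.isLt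
    have hj3 : (-j).val = b + 1 - j.val := by
      rw [Fin.val_neg]
      rw [if_neg hj]
    simp only [pos, rho, hj3]
    omega

include hμ hz in
lemma AA_rho : AA μ (fun v => pos (rho v)) = comp (AA μ pos) (BB μ) := by
  funext u r
  by_cases h : u = r
  · subst h
    have h2 : ∀ P : TT a b → ℕ, AA μ P u u = 0 := by
      intro P
      unfold AA bt btw
      simp
    unfold comp
    rw [h2, h2]
    simp
  · obtain ⟨h1, h2, h3, h4⟩ := rep_ne hμ h
    have e := bt_rev (a := a) (N := 2 * a + b + 3) (fun e => h1 (pos_inj e))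
      (fun e => h2 (pos_inj e)) (fun e => h3 (pos_inj e)) (fun e => h4 (pos_inj e)) u.2.2 r.2.2
      (pos_rho u.2.1) (pos_rho (nz_mu hμ hz u.2.1)) (pos_rho r.2.1) (pos_rho (nz_mu hμ hz r.2.1))
    unfold AA comp
    rw [e]
    beta_reduce
    congr 1
    simp [BB, h]

include hμ hμ' hz in
lemma sum_split {M : Type*} [AddCommMonoid M] (g : TT a b → M) :
    ∑ t ∈ univ.filter (fun t : TT a b => nz t), g t = ∑ r : Rep μ, (g r.1 + g (μ r.1)) := by
  rw [Finset.sum_add_distrib]
  rw [← Finset.sum_filter_add_sum_filter_not (univ.filter fun t : TT a b => nz t)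
    (fun t => pos t < pos (μ t))]
  congr 1
  · rw [Finset.filter_filter]
    rw [Finset.sum_subtype (p := fun v : TT a b => nz v ∧ pos v < pos (μ v))]
    intro x; simp
  · have h1 : ∑ r : Rep μ, g (μ r.1) =
        ∑ t ∈ univ.filter (fun v : TT a b => nz v ∧ pos v < pos (μ v)), g (μ t) := by
      rw [Finset.sum_subtype (p := fun v : TT a b => nz v ∧ pos v < pos (μ v))]
      intro x; simp
    rw [h1, Finset.filter_filter]
    refine Finset.sum_nbij' (fun t => μ t) (fun t => μ t) ?_ ?_ ?_ ?_ ?_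
    · intro t ht
      simp only [mem_filter, mem_univ, true_and] at ht ⊢
      refine ⟨nz_mu hμ hz ht.1, ?_⟩
      rw [hμ]
      have : pos t ≠ pos (μ t) := fun e => hμ' t (pos_inj e).symm
      omega
    · intro t ht
      simp only [mem_filter, mem_univ, true_and] at ht ⊢
      refine ⟨nz_mu hμ hz ht.1, ?_⟩
      rw [hμ]
      omega
    · intro t _; exact hμ t
    · intro t _; exact hμ t
    · intro t _; rw [hμ]

/-! ### The colouring of all vertices -/

include hμ in
lemma rep_or {v : TT a b} (hv : nz v) (h : ¬ pos v < pos (μ v)) (hμ' : ∀ v, μ v ≠ v) :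
    pos (μ v) < pos (μ (μ v)) := by
  rw [hμ]
  have : pos v ≠ pos (μ v) := fun e => hμ' v (pos_inj e).symm
  omega

open Classical in
/-- the colouring of all vertices defined by a colouring of the representatives -/
noncomputable def ext (μ : TT a b → TT a b) (c : Rep μ → ZMod 3) (s : F4) (v : TT a b) : F4 :=
  if h : nz v ∧ pos v < pos (μ v) then vec (c ⟨v, h⟩)
  else if h : nz (μ v) ∧ pos (μ v) < pos (μ (μ v)) then vec (c ⟨μ v, h⟩) else s

lemma ext_rep (c : Rep μ → ZMod 3) (s : F4) (r : Rep μ) : ext μ c s r.1 = vec (c r) := by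
  unfold ext
  rw [dif_pos r.2]

include hμ in
lemma ext_mu_rep (c : Rep μ → ZMod 3) (s : F4) (r : Rep μ) : ext μ c s (μ r.1) = vec (c r) := by
  unfold ext
  have h1 : ¬ (nz (μ r.1) ∧ pos (μ r.1) < pos (μ (μ r.1))) := by
    rintro ⟨_, h⟩
    rw [hμ] at h
    have := r.2.2
    omega
  have h2 : nz (μ (μ r.1)) ∧ pos (μ (μ r.1)) < pos (μ (μ (μ r.1))) := by
    rw [hμ]; exact r.2
  rw [dif_neg h1, dif_pos h2]
  congr 2
  exact Subtype.ext (hμ r.1)

include hz in
lemma ext_base (hμ : ∀ v, μ (μ v) = v) (c : Rep μ → ZMod 3) (s : F4) :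
    ext μ c s (Sum.inl 0) = s := by
  unfold ext
  have h1 : ¬ (nz (Sum.inl 0 : TT a b) ∧ pos (Sum.inl 0 : TT a b) < pos (μ (Sum.inl 0))) :=
    fun h => h.1.1 rfl
  have h2 : ¬ (nz (μ (Sum.inl 0)) ∧ pos (μ (Sum.inl 0)) < pos (μ (μ (Sum.inl 0)))) := by
    rw [hz]; exact fun h => h.1.2 rfl
  rw [dif_neg h1, dif_neg h2]

include hz in
lemma ext_base' (hμ : ∀ v, μ (μ v) = v) (c : Rep μ → ZMod 3) (s : F4) :
    ext μ c s (Sum.inr 0) = s := by
  have hz' : μ (Sum.inr 0) = Sum.inl 0 := by rw [← hz, hμ]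
  unfold ext
  have h1 : ¬ (nz (Sum.inr 0 : TT a b) ∧ pos (Sum.inr 0 : TT a b) < pos (μ (Sum.inr 0))) :=
    fun h => h.1.2 rfl
  have h2 : ¬ (nz (μ (Sum.inr 0)) ∧ pos (μ (Sum.inr 0)) < pos (μ (μ (Sum.inr 0)))) := by
    rw [hz']; exact fun h => h.1.1 rfl
  rw [dif_neg h1, dif_neg h2]

lemma vec_ne_zero (i : ZMod 3) : vec i ≠ 0 := by revert i; decide

include hμ hμ' in
lemma exists_rep {v : TT a b} (hz : μ (Sum.inl 0) = Sum.inr 0) (hv : nz v) :
    ∃ r : Rep μ, v = r.1 ∨ v = μ r.1 := by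
  by_cases h : pos v < pos (μ v)
  · exact ⟨⟨v, hv, h⟩, Or.inl rfl⟩
  · exact ⟨⟨μ v, nz_mu hμ hz hv, rep_or hμ hv h hμ'⟩, Or.inr (hμ v).symm⟩

include hμ hμ' hz in
lemma ext_mu (c : Rep μ → ZMod 3) (s : F4) (v : TT a b) : ext μ c s (μ v) = ext μ c s v := by
  by_cases hv : nz v
  · obtain ⟨r, rfl | rfl⟩ := exists_rep hμ hμ' hz hv
    · rw [ext_mu_rep hμ, ext_rep]
    · rw [hμ, ext_mu_rep hμ, ext_rep]
  · have hz' : μ (Sum.inr 0) = Sum.inl 0 := by rw [← hz, hμ]
    have : v = Sum.inl 0 ∨ v = Sum.inr 0 := by unfold nz at hv; tauto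
    rcases this with rfl | rfl
    · rw [hz, ext_base hz hμ, ext_base' hz hμ]
    · rw [hz', ext_base hz hμ, ext_base' hz hμ]

include hμ hμ' hz in
lemma ext_ne (c : Rep μ → ZMod 3) {s : F4} (hs : s ≠ 0) (v : TT a b) : ext μ c s v ≠ 0 := by
  by_cases hv : nz v
  · obtain ⟨r, rfl | rfl⟩ := exists_rep hμ hμ' hz hv
    · rw [ext_rep]; exact vec_ne_zero _
    · rw [ext_mu_rep hμ]; exact vec_ne_zero _
  · have : v = Sum.inl 0 ∨ v = Sum.inr 0 := by unfold nz at hv; tauto
    rcases this with rfl | rfl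
    · rw [ext_base hz hμ]; exact hs
    · rw [ext_base' hz hμ]; exact hs

include hμ hμ' hz in
lemma sum_ext (c : Rep μ → ZMod 3) (s : F4) (p : TT a b → Prop) [DecidablePred p] :
    ∑ t ∈ univ.filter (fun t => nz t ∧ p t), ext μ c s t =
      ∑ r : Rep μ, ((if p r.1 then vec (c r) else 0) + if p (μ r.1) then vec (c r) else 0) := by
  rw [← Finset.filter_filter, Finset.sum_filter, sum_split hμ hμ' hz]
  refine Finset.sum_congr rfl fun r _ => ?_
  rw [ext_rep, ext_mu_rep hμ]

include hμ hμ' hz in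
lemma valid_rep {P : TT a b → ℕ} (c : Rep μ → ZMod 3) (s : F4) (hc : Val (AA μ P) c)
    (u : Rep μ) :
    (∑ t ∈ univ.filter (fun t => nz t ∧ btw (P u) (P (μ u)) (P t)), ext μ c s t) = 0 ∨
    (∑ t ∈ univ.filter (fun t => nz t ∧ btw (P u) (P (μ u)) (P t)), ext μ c s t) = vec (c u) := by
  rw [← dt_zero_iff, sum_ext hμ hμ' hz, dt_sum]
  rw [← hc u]
  unfold dd
  refine Finset.sum_congr rfl fun r _ => ?_
  unfold AA bt
  rw [← dt_vec]
  by_cases h1 : btw (P u.1) (P (μ u.1)) (P r.1) <;>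
    by_cases h2 : btw (P u.1) (P (μ u.1)) (P (μ r.1)) <;>
    simp only [h1, h2, if_true, if_false, dt, Prod.fst_add, Prod.snd_add, Prod.fst_zero,
      Prod.snd_zero] <;> ring

include hμ hμ' hz in
lemma valid_all {P : TT a b → ℕ} (c : Rep μ → ZMod 3) (s : F4) (hc : Val (AA μ P) c)
    (u : TT a b) (hu : nz u) :
    (∑ t ∈ univ.filter (fun t => nz t ∧ btw (P u) (P (μ u)) (P t)), ext μ c s t) = 0 ∨
    (∑ t ∈ univ.filter (fun t => nz t ∧ btw (P u) (P (μ u)) (P t)), ext μ c s t) =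
      ext μ c s u := by
  obtain ⟨r, rfl | rfl⟩ := exists_rep hμ hμ' hz hu
  · rw [ext_rep]
    exact valid_rep hμ hμ' hz c s hc r
  · rw [ext_mu_rep hμ, hμ]
    have h := valid_rep hμ hμ' hz c s hc r
    simp only [btw_comm (P (μ r.1)) (P r.1)]
    exact h

include hμ hμ' hz in
lemma sum_first (c : Rep μ → ZMod 3) (s : F4) :
    ∑ i ∈ univ.filter (fun i : Fin (a + 1) => i ≠ 0), ext μ c s (Sum.inl i) =
      ∑ r ∈ BB μ, vec (c r) := by
  have h1 : ∑ i ∈ univ.filter (fun i : Fin (a + 1) => i ≠ 0), ext μ c s (Sum.inl i) =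
      ∑ t ∈ univ.filter (fun t : TT a b => nz t ∧ pos t ≤ a), ext μ c s t := by
    have hm : ∑ i ∈ univ.filter (fun i : Fin (a + 1) => i ≠ 0), ext μ c s (Sum.inl i) =
        ∑ t ∈ (univ.filter fun i : Fin (a + 1) => i ≠ 0).map
          (⟨Sum.inl, Sum.inl_injective⟩ : Fin (a + 1) ↪ TT a b), ext μ c s t := by
      rw [Finset.sum_map]; rfl
    rw [hm]
    refine Finset.sum_congr ?_ fun _ _ => rfl
    ext t
    simp only [mem_filter, mem_univ, true_and, mem_map, Function.Embedding.coeFn_mk]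
    constructor
    · rintro ⟨i, hi, rfl⟩
      refine ⟨⟨?_, ?_⟩, ?_⟩
      · intro h; exact hi (Sum.inl_injective h)
      · simp
      · have := i.isLt
        simp only [pos]
        omega
    · rintro ⟨h1, h2⟩
      rcases t with i | j
      · refine ⟨i, ?_, rfl⟩
        rintro rfl; exact h1.1 rfl
      · exfalso
        simp only [pos] at h2
        omega
  rw [h1, sum_ext hμ hμ' hz]
  unfold BB
  rw [Finset.sum_filter]
  refine Finset.sum_congr rfl fun r _ => ?_
  have h2 := r.2.2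
  by_cases h3 : pos r.1 ≤ a
  · by_cases h4 : pos (μ r.1) ≤ a
    · rw [if_pos h3, if_pos h4, if_neg (by omega), F4_add_self]
    · rw [if_pos h3, if_neg h4, if_pos (by omega), add_zero]
  · rw [if_neg h3, if_neg (by omega), if_neg (by omega), add_zero]

include hμ hμ' hz in
lemma card_BB : (BB μ).card + 1 =
    (univ.filter fun i : Fin (a + 1) => a < pos (μ (Sum.inl i))).card := by
  have h1 : univ.filter (fun i : Fin (a + 1) => a < pos (μ (Sum.inl i))) =
      insert 0 (univ.filter fun i : Fin (a + 1) => i ≠ 0 ∧ a < pos (μ (Sum.inl i))) := by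
    ext i
    simp only [mem_filter, mem_univ, true_and, mem_insert]
    constructor
    · intro h
      by_cases hi : i = 0
      · exact Or.inl hi
      · exact Or.inr ⟨hi, h⟩
    · rintro (rfl | ⟨_, h⟩)
      · rw [hz]; simp only [pos]; omega
      · exact h
  rw [h1, card_insert_of_notMem (by simp)]
  congr 1
  symm
  refine Finset.card_bij (fun i hi => (⟨Sum.inl i, ?_, ?_⟩ : Rep μ)) ?_ ?_ ?_
  · simp only [mem_filter, mem_univ, true_and] at hi
    exact ⟨fun h => hi.1 (Sum.inl_injective h), by simp⟩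
  · simp only [mem_filter, mem_univ, true_and] at hi
    have := i.isLt
    have h2 : pos (Sum.inl i : TT a b) = i.val := rfl
    rw [h2]; omega
  · intro i hi
    simp only [mem_filter, mem_univ, true_and] at hi
    have := i.isLt
    simp only [BB, mem_filter, mem_univ, true_and]
    refine ⟨?_, hi.2⟩
    simp only [pos]; omega
  · intro i _ j _ h
    have := congrArg Subtype.val h
    exact Sum.inl_injective this
  · intro r hr
    simp only [BB, mem_filter, mem_univ, true_and] at hr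
    obtain ⟨v, hv⟩ := r
    rcases v with i | j
    · refine ⟨i, ?_, rfl⟩
      simp only [mem_filter, mem_univ, true_and]
      exact ⟨fun h => hv.1.1 (by rw [h]), hr.2⟩
    · exfalso
      have h2 : pos (Sum.inr j : TT a b) = a + 1 + j.val := rfl
      rw [h2] at hr
      omega

include hμ hμ' hz in
/-- If the number of chords joining the two circles is `3` modulo `4`, then there is a good
colouring. -/
theorem good_of_cross
    (hm : (univ.filter fun i : Fin (a + 1) => a < pos (μ (Sum.inl i))).card % 4 = 3) :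
    Good μ := by
  classical
  have hB : (BB μ).card % 4 = 2 := by
    have := card_BB hμ hμ' hz
    omega
  have hB2 : (BB μ).card.choose 2 % 2 = 1 := by
    obtain ⟨k, hk⟩ : ∃ k, (BB μ).card = 4 * k + 2 := ⟨(BB μ).card / 4, by omega⟩
    rw [hk, Nat.choose_two_right]
    have : (4 * k + 2) * (4 * k + 2 - 1) = 2 * ((2 * k + 1) * (4 * k + 1)) := by
      have : 4 * k + 2 - 1 = 4 * k + 1 := by omega
      rw [this]; ring
    rw [this, Nat.mul_div_cancel_left _ (by norm_num)]
    have h2 : (2 * k + 1) * (4 * k + 1) = 2 * (4 * k ^ 2 + 3 * k) + 1 := by ring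
    omega
  obtain ⟨c, hc, hs⟩ := exists_val (AA μ pos) (AA_symm hμ fun _ _ h => pos_inj h) (BB μ) hB2
  set s : F4 := ∑ r ∈ BB μ, vec (c r) with hsdef
  rcases hc with hc | hc
  · refine good_of_valid hμ hμ' hz (ext μ c s) (ext_mu hμ hμ' hz c s)
      (ext_ne hμ hμ' hz c hs) ?_ ?_
    · rw [ext_base hz hμ, sum_first hμ hμ' hz]
    · intro u hu
      exact valid_all hμ hμ' hz c s hc u hu
  · rw [← AA_rho hμ hz] at hc
    apply good_rho
    refine good_of_valid (μ := fun v => rho (μ (rho v))) ?_ ?_ ?_ (fun v => ext μ c s (rho v))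
      ?_ ?_ ?_ ?_
    · intro v; simp only [rho_rho, hμ]
    · intro v h
      apply hμ' (rho v)
      have := congrArg rho h
      rwa [rho_rho] at this
    · simp only [rho, hz, neg_zero]
    · intro v
      simp only [rho_rho]
      exact ext_mu hμ hμ' hz c s _
    · intro v
      exact ext_ne hμ hμ' hz c hs _
    · simp only [rho]
      rw [ext_base hz hμ, sum_first hμ hμ' hz]
    · intro u hu
      have h := valid_all hμ hμ' hz (P := fun v => pos (rho v)) c s hc (rho u) ((rho_nz u).2 hu)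
      have h2 : ∑ t ∈ univ.filter (fun t => nz t ∧
          btw (pos u) (pos (rho (μ (rho u)))) (pos t)), ext μ c s (rho t) =
          ∑ t ∈ univ.filter (fun t => nz t ∧ btw (pos (rho (rho u))) (pos (rho (μ (rho u))))
            (pos (rho t))), ext μ c s t := by
        refine Finset.sum_nbij' rho rho ?_ ?_ ?_ ?_ ?_
        · intro t ht
          simp only [mem_filter, mem_univ, true_and, rho_rho] at ht ⊢
          exact ⟨(rho_nz t).2 ht.1, ht.2⟩
        · intro t ht
          simp only [mem_filter, mem_univ, true_and, rho_rho] at ht ⊢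
          exact ⟨(rho_nz t).2 ht.1, ht.2⟩
        · intro t _; exact rho_rho t
        · intro t _; exact rho_rho t
        · intro t _; rfl
      rw [h2]
      exact h

end

end Pool.Agent.H34TC
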