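import Pool.Agent.H74.GE.Defs
import Pool.Agent.H34TC.Exist

/-!
# From a colouring of the weight one edges to a faithful circuit cover (helper34)
-/

open Finset
open scoped Classical

namespace Pool.Agent.H34TC

universe u
variable {V : Type u}

lemma countP_toList {ι : Type*} (s : Finset ι) (q : ι → Prop) [DecidablePred q] :
    s.toList.countP (fun x => decide (q x)) = (s.filter q).card := by
  rw [← Multiset.coe_countP, Finset.coe_toList, Multiset.countP_eq_card_filter]
  rfl

/-- A graph in which all degrees are `0` or `2` is an edge-disjoint union of circuits. -/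
lemma cycles_list [Fintype V] {G H : SimpleGraph V} (hle : H ≤ G) (hH : H.IsCycles) :
    ∃ L : List (Finset (Sym2 V)), (∀ C ∈ L, GE.IsCircuit G C) ∧
      ∀ e, L.countP (fun C => e ∈ C) = if e ∈ H.edgeSet then 1 else 0 := by
  have hex : ∀ c : H.ConnectedComponent, (∃ v ∈ c.supp, (H.neighborSet v).Nonempty) →
      ∃ (v : V) (p : H.Walk v v), p.IsCycle ∧ p.toSubgraph.verts = c.supp := by
    rintro c ⟨v, hv, hn⟩
    obtain ⟨p, hp, hp2⟩ := hH.exists_cycle_toSubgraph_verts_eq_connectedComponentSupp hv hn
    exact ⟨v, p, hp, hp2⟩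
  set S : Finset H.ConnectedComponent :=
    univ.filter fun c => ∃ v ∈ c.supp, (H.neighborSet v).Nonempty with hS
  choose vv pp hcyc hverts using hex
  set CC : H.ConnectedComponent → Finset (Sym2 V) := fun c =>
    if h : ∃ v ∈ c.supp, (H.neighborSet v).Nonempty then (pp c h).edges.toFinset else ∅ with hCC
  have hmem : ∀ c (h : ∃ v ∈ c.supp, (H.neighborSet v).Nonempty) x y,
      s(x, y) ∈ (pp c h).edges ↔ H.Adj x y ∧ x ∈ c.supp := by
    intro c h x y
    constructor
    · intro he
      refine ⟨(pp c h).adj_of_mem_edges he, ?_⟩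
      rw [← hverts c h]
      have := (pp c h).fst_mem_support_of_mem_edges he
      simpa using this
    · rintro ⟨hadj, hx⟩
      have hx2 : x ∈ (pp c h).support := by
        have : x ∈ (pp c h).toSubgraph.verts := by rw [hverts c h]; exact hx
        simpa using this
      have h1 := (hcyc c h).ncard_neighborSet_toSubgraph_eq_two hx2
      have h2 : (H.neighborSet x).ncard = 2 := hH ⟨y, hadj⟩
      have h3 : (pp c h).toSubgraph.neighborSet x ⊆ H.neighborSet x :=
        SimpleGraph.Subgraph.neighborSet_subset _ _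
      have h4 := Set.eq_of_subset_of_ncard_le h3 (by rw [h1, h2]) (Set.toFinite _)
      have h5 : y ∈ (pp c h).toSubgraph.neighborSet x := by rw [h4]; exact hadj
      have h6 : (pp c h).toSubgraph.Adj x y := h5
      rwa [SimpleGraph.Walk.adj_toSubgraph_iff_mem_edges] at h6
  refine ⟨S.toList.map CC, ?_, ?_⟩
  · intro C hC
    rw [List.mem_map] at hC
    obtain ⟨c, hc, rfl⟩ := hC
    rw [Finset.mem_toList, hS, mem_filter] at hc
    refine ⟨vv c hc.2, (pp c hc.2).mapLe hle, (hcyc c hc.2).mapLe hle, ?_⟩
    simp only [hCC, hc.2, dif_pos]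
    simp
  · intro e
    rw [List.countP_map]
    have h1 : S.toList.countP ((fun C : Finset (Sym2 V) => decide (e ∈ C)) ∘ CC) =
        (S.filter fun c => e ∈ CC c).card := by
      rw [← countP_toList]; rfl
    rw [h1]
    induction e using Sym2.ind with
    | _ x y =>
      split_ifs with he
      · rw [SimpleGraph.mem_edgeSet] at he
        rw [Finset.card_eq_one]
        refine ⟨H.connectedComponentMk x, ?_⟩
        ext c
        rw [mem_filter, mem_singleton]
        constructor
        · rintro ⟨hc, h2⟩
          rw [hS, mem_filter] at hc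
          simp only [hCC, hc.2, dif_pos, List.mem_toFinset] at h2
          have := ((hmem c hc.2 x y).1 h2).2
          rw [SimpleGraph.ConnectedComponent.mem_supp_iff] at this
          exact this.symm
        · rintro rfl
          have h2 : ∃ v ∈ (H.connectedComponentMk x).supp, (H.neighborSet v).Nonempty :=
            ⟨x, rfl, y, he⟩
          refine ⟨by rw [hS, mem_filter]; exact ⟨mem_univ _, h2⟩, ?_⟩
          simp only [hCC, h2, dif_pos, List.mem_toFinset]
          exact (hmem _ h2 x y).2 ⟨he, rfl⟩
      · rw [Finset.card_eq_zero, Finset.filter_eq_empty_iff]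
        intro c hc h2
        rw [hS, mem_filter] at hc
        simp only [hCC, hc.2, dif_pos, List.mem_toFinset] at h2
        exact he ((hmem c hc.2 x y).1 h2).1

/-- the subgraph of colour `α` -/
def XX (σ : Equiv.Perm V) (μ : V → V) (f : V → F4) (h2 : ∀ v, σ v ≠ v) (hμ : ∀ v, μ (μ v) = v)
    (hμ' : ∀ v, μ v ≠ v) (h5 : ∀ v, s(f v, f (σ.symm v)) = s(f (μ v), f (σ.symm (μ v))))
    (α : F4) : SimpleGraph V where
  Adj u v := (v = σ u ∧ f u = α) ∨ (u = σ v ∧ f v = α) ∨ (v = μ u ∧ α ∈ s(f u, f (σ.symm u)))
  symm := ⟨by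
    rintro u v (h | h | ⟨rfl, h⟩)
    · exact Or.inr (Or.inl h)
    · exact Or.inl h
    · refine Or.inr (Or.inr ⟨(hμ u).symm, ?_⟩)
      rw [← h5 u]; exact h⟩
  loopless := ⟨by
    rintro u (h | h | h)
    · exact h2 u h.1.symm
    · exact h2 u h.1.symm
    · exact hμ' u h.1.symm⟩

theorem cover_of_colouring [Fintype V] {G : SimpleGraph V} {w : Sym2 V → ℕ}
    (σ : Equiv.Perm V) (μ : V → V)
    (h1 : ∀ v, G.Adj v (σ v) ∧ w s(v, σ v) = 1)
    (h2 : ∀ v, σ (σ v) ≠ v)
    (h3 : ∀ v, G.Adj v (μ v) ∧ w s(v, μ v) = 2)
    (hμ : ∀ v, μ (μ v) = v)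
    (h4 : ∀ u v, G.Adj u v → v = σ u ∨ u = σ v ∨ v = μ u)
    (f : V → F4)
    (h5 : ∀ v, f v ≠ f (σ.symm v) ∧ s(f v, f (σ.symm v)) = s(f (μ v), f (σ.symm (μ v)))) :
    GE.HasFaithfulCover G w := by
  have hσ : ∀ v, σ v ≠ v := fun v => (h1 v).1.ne'
  have hμ' : ∀ v, μ v ≠ v := fun v => (h3 v).1.ne'
  have hne : ∀ v, σ v ≠ μ v := by
    intro v h
    have e1 := (h1 v).2
    have e2 := (h3 v).2
    rw [h, e2] at e1
    omega
  have hne2 : ∀ v, σ.symm v ≠ μ v := by
    intro v h
    have e1 := (h1 (σ.symm v)).2
    rw [Equiv.apply_symm_apply, Sym2.eq_swap, h] at e1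
    have e2 := (h3 v).2
    omega
  set X : F4 → SimpleGraph V := fun α => XX σ μ f hσ hμ hμ' (fun v => (h5 v).2) α with hX
  have hadj : ∀ α u v, (X α).Adj u v ↔
      (v = σ u ∧ f u = α) ∨ (u = σ v ∧ f v = α) ∨ (v = μ u ∧ α ∈ s(f u, f (σ.symm u))) :=
    fun α u v => Iff.rfl
  have hle : ∀ α, X α ≤ G := by
    intro α u v h
    rw [hadj] at h
    rcases h with ⟨rfl, _⟩ | ⟨rfl, _⟩ | ⟨rfl, _⟩
    · exact (h1 u).1
    · exact (h1 v).1.symm
    · exact (h3 u).1
  have hcyc : ∀ α, (X α).IsCycles := by
    intro α v hn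
    by_cases e1 : f v = α
    · have : (X α).neighborSet v = {σ v, μ v} := by
        ext x
        rw [SimpleGraph.mem_neighborSet, hadj]
        simp only [Set.mem_insert_iff, Set.mem_singleton_iff]
        constructor
        · rintro (h | ⟨h, h'⟩ | h)
          · exact Or.inl h.1
          · exfalso
            apply (h5 v).1
            have : σ.symm v = x := by rw [h, Equiv.symm_apply_apply]
            rw [this, h', e1]
          · exact Or.inr h.1
        · rintro (h | h)
          · exact Or.inl ⟨h, e1⟩
          · exact Or.inr (Or.inr ⟨h, by rw [e1]; exact Sym2.mem_mk_left _ _⟩)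
      rw [this, Set.ncard_pair (hne v)]
    · by_cases e2 : f (σ.symm v) = α
      · have : (X α).neighborSet v = {σ.symm v, μ v} := by
          ext x
          rw [SimpleGraph.mem_neighborSet, hadj]
          simp only [Set.mem_insert_iff, Set.mem_singleton_iff]
          constructor
          · rintro (h | ⟨h, h'⟩ | h)
            · exact absurd h.2 e1
            · left; rw [h, Equiv.symm_apply_apply]
            · exact Or.inr h.1
          · rintro (h | h)
            · refine Or.inr (Or.inl ⟨?_, ?_⟩)
              · rw [h, Equiv.apply_symm_apply]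
              · rw [h, e2]
            · exact Or.inr (Or.inr ⟨h, by rw [e2]; exact Sym2.mem_mk_right _ _⟩)
        rw [this, Set.ncard_pair (hne2 v)]
      · exfalso
        obtain ⟨x, hx⟩ := hn
        rw [SimpleGraph.mem_neighborSet, hadj] at hx
        rcases hx with h | ⟨h, h'⟩ | ⟨_, h⟩
        · exact e1 h.2
        · apply e2
          rw [h, Equiv.symm_apply_apply, h']
        · rw [Sym2.mem_iff] at h
          rcases h with h | h
          · exact e1 h.symm
          · exact e2 h.symm
  choose L hL hL2 using fun α => cycles_list (hle α) (hcyc α)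
  refine ⟨(univ : Finset F4).toList.flatMap L, ?_, ?_⟩
  · intro C hC
    rw [List.mem_flatMap] at hC
    obtain ⟨α, _, h⟩ := hC
    exact hL α C h
  · intro e he
    rw [List.countP_flatMap]
    have e1 : ((fun α => List.countP (fun C => decide (e ∈ C)) (L α))) =
        fun α => if e ∈ (X α).edgeSet then 1 else 0 := by
      funext α; exact hL2 α e
    have e2 : (List.countP (fun C : Finset (Sym2 V) => decide (e ∈ C)) ∘ L) =
        fun α => if e ∈ (X α).edgeSet then 1 else 0 := e1
    rw [e2, Finset.sum_map_toList, ← Finset.card_filter]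
    induction e using Sym2.ind with
    | _ x y =>
      rw [SimpleGraph.mem_edgeSet] at he
      have key1 : ∀ u, (univ.filter fun α => s(u, σ u) ∈ (X α).edgeSet).card = w s(u, σ u) := by
        intro u
        rw [(h1 u).2, Finset.card_eq_one]
        refine ⟨f u, ?_⟩
        ext α
        rw [mem_filter, mem_singleton, SimpleGraph.mem_edgeSet, hadj]
        constructor
        · rintro ⟨_, h | h | h⟩
          · exact h.2.symm
          · exact absurd h.1.symm (h2 u)
          · exact absurd h.1 (hne u)
        · rintro rfl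
          exact ⟨mem_univ _, Or.inl ⟨rfl, rfl⟩⟩
      rcases h4 x y he with rfl | rfl | rfl
      · exact key1 x
      · rw [Sym2.eq_swap]; exact key1 y
      · rw [(h3 x).2]
        have : (univ.filter fun α => s(x, μ x) ∈ (X α).edgeSet) = {f x, f (σ.symm x)} := by
          ext α
          rw [mem_filter, SimpleGraph.mem_edgeSet, hadj, mem_insert, mem_singleton]
          constructor
          · rintro ⟨_, h | h | h⟩
            · exact absurd h.1.symm (hne x)
            · exfalso
              apply hne2 x
              rw [Equiv.symm_apply_eq]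
              exact h.1
            · exact Sym2.mem_iff.1 h.2
          · intro h
            exact ⟨mem_univ _, Or.inr (Or.inr ⟨rfl, Sym2.mem_iff.2 h⟩)⟩
        rw [this, Finset.card_pair (h5 x).1]

end Pool.Agent.H34TC
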