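import Pool.Agent.H34TC.Assemble
import Pool.Agent.H34TC.Exist

/-!
# Two circuits: the main theorem (helper34, MP_472c72_co)
-/

open Finset
open scoped Classical

namespace Pool.Agent.H34TC

universe u
variable {V : Type u}

lemma third {S : Set V} (h : S.ncard = 3) {p q : V} (hp : p ∈ S) (hq : q ∈ S) (hpq : p ≠ q) :
    ∃ r ∈ S, r ≠ p ∧ r ≠ q ∧ ∀ t ∈ S, t = p ∨ t = q ∨ t = r := by
  obtain ⟨x, y, z, hxy, hxz, hyz, rfl⟩ := Set.ncard_eq_three.1 h
  simp only [Set.mem_insert_iff, Set.mem_singleton_iff] at hp hq ⊢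
  rcases hp with rfl | rfl | rfl <;> rcases hq with rfl | rfl | rfl
  · exact absurd rfl hpq
  · exact ⟨z, by simp, hxz.symm, hyz.symm, fun t ht => ht⟩
  · exact ⟨y, by simp, hxy.symm, hyz, fun t ht => by tauto⟩
  · exact ⟨z, by simp, hyz.symm, hxz.symm, fun t ht => by tauto⟩
  · exact absurd rfl hpq
  · exact ⟨x, by simp, hxy, hxz, fun t ht => by tauto⟩
  · exact ⟨y, by simp, hyz, hxy.symm, fun t ht => by tauto⟩
  · exact ⟨x, by simp, hxz, hxy, fun t ht => by tauto⟩
  · exact absurd rfl hpq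

lemma nxt_prd {a b : ℕ} (v : TT a b) : nxt a b (prd v) = v := by
  rw [← nxt_symm, Equiv.apply_symm_apply]

lemma prd_nxt {a b : ℕ} (v : TT a b) : prd (nxt a b v) = v := by
  rw [← nxt_symm, Equiv.symm_apply_apply]

/-- The combinatorial data of a cubic graph whose edges of weight one form two circuits. -/
theorem extract {G : SimpleGraph V} {w : Sym2 V → ℕ} {C₁ C₂ : Finset (Sym2 V)} {m : ℕ}
    (hG : GE.IsCubic G) (hw : GE.IsWeight12 G w) (hT : TwoCircuits G w C₁ C₂ m) {x y : V}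
    (hx : On C₁ x) (hy : On C₂ y) :
    ∃ (a b : ℕ) (E : TT a b ≃ V) (μ : TT a b → TT a b), 2 ≤ a ∧ 2 ≤ b ∧
      E (Sum.inl 0) = x ∧ E (Sum.inr 0) = y ∧ (∀ v, μ (μ v) = v) ∧ (∀ v, μ v ≠ v) ∧
      (∀ z, On C₁ z ↔ ∃ i, E (Sum.inl i) = z) ∧ (∀ z, On C₂ z ↔ ∃ j, E (Sum.inr j) = z) ∧
      (∀ v, G.Adj (E v) (E (nxt a b v)) ∧ w s(E v, E (nxt a b v)) = 1) ∧
      (∀ v, G.Adj (E v) (E (μ v)) ∧ w s(E v, E (μ v)) = 2) ∧
      (∀ u v, G.Adj (E u) (E v) → v = nxt a b u ∨ u = nxt a b v ∨ v = μ u) := by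
  obtain ⟨a, φ, ha, hφ, hφadj, hφmem, hφ0⟩ := cyc_param' hT.circ₁ hx
  obtain ⟨b, ψ, hb, hψ, hψadj, hψmem, hψ0⟩ := cyc_param' hT.circ₂ hy
  have on1 : ∀ z, On C₁ z ↔ ∃ i, φ i = z := on_iff hφmem
  have on2 : ∀ z, On C₂ z ↔ ∃ i, ψ i = z := on_iff hψmem
  have hbij : Function.Bijective (Sum.elim φ ψ : TT a b → V) := by
    constructor
    · rintro (i | i) (j | j) h
      · exact congrArg _ (hφ h)
      · exact absurd ((on2 _).2 ⟨j, h.symm⟩) (hT.disj _ ((on1 (φ i)).2 ⟨i, rfl⟩))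
      · exact absurd ((on2 _).2 ⟨i, h⟩) (hT.disj _ ((on1 (φ j)).2 ⟨j, rfl⟩))
      · exact congrArg _ (hψ h)
    · intro z
      rcases hT.cover z with h | h
      · obtain ⟨i, hi⟩ := (on1 z).1 h
        exact ⟨Sum.inl i, hi⟩
      · obtain ⟨i, hi⟩ := (on2 z).1 h
        exact ⟨Sum.inr i, hi⟩
  obtain ⟨E, hE⟩ : ∃ E : TT a b ≃ V, ∀ v, E v = Sum.elim φ ψ v :=
    ⟨Equiv.ofBijective _ hbij, fun v => rfl⟩
  have E1 : ∀ i, E (Sum.inl i) = φ i := fun i => hE _
  have E2 : ∀ i, E (Sum.inr i) = ψ i := fun i => hE _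
  -- successor edges
  have hadj : ∀ v, G.Adj (E v) (E (nxt a b v)) := by
    rintro (i | i)
    · rw [nxt_inl, E1, E1]; exact hφadj i
    · rw [nxt_inr, E2, E2]; exact hψadj i
  have hmem : ∀ e, (e ∈ C₁ ∨ e ∈ C₂) ↔ ∃ v, e = s(E v, E (nxt a b v)) := by
    intro e
    rw [hφmem, hψmem]
    constructor
    · rintro (⟨i, hi⟩ | ⟨i, hi⟩)
      · exact ⟨Sum.inl i, by rw [nxt_inl, E1, E1]; exact hi⟩
      · exact ⟨Sum.inr i, by rw [nxt_inr, E2, E2]; exact hi⟩
    · rintro ⟨i | i, hi⟩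
      · rw [nxt_inl, E1, E1] at hi; exact Or.inl ⟨i, hi⟩
      · rw [nxt_inr, E2, E2] at hi; exact Or.inr ⟨i, hi⟩
  have hone : ∀ v, w s(E v, E (nxt a b v)) = 1 := fun v =>
    (hT.weight _ (hadj v)).2 ((hmem _).2 ⟨v, rfl⟩)
  have hadj' : ∀ v, G.Adj (E v) (E (prd v)) := by
    intro v
    have := hadj (prd v)
    rw [nxt_prd] at this
    exact this.symm
  have hnp : ∀ v : TT a b, E (nxt a b v) ≠ E (prd v) := by
    intro v h
    have h1 := E.injective h
    have h2 := nxt_nxt ha hb (prd v)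
    rw [nxt_prd] at h2
    exact h2 h1
  -- third neighbour
  have hthird : ∀ v : TT a b, ∃ u : TT a b, G.Adj (E v) (E u) ∧ u ≠ nxt a b v ∧ u ≠ prd v ∧
      ∀ t, G.Adj (E v) (E t) → t = nxt a b v ∨ t = prd v ∨ t = u := by
    intro v
    obtain ⟨r, hr, h1, h2, h3⟩ := third (hG (E v)) (hadj v) (hadj' v) (hnp v)
    refine ⟨E.symm r, ?_, ?_, ?_, ?_⟩
    · rw [Equiv.apply_symm_apply]; exact hr
    · intro h; apply h1; rw [← h, Equiv.apply_symm_apply]
    · intro h; apply h2; rw [← h, Equiv.apply_symm_apply]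
    · intro t ht
      rcases h3 _ ht with h | h | h
      · exact Or.inl (E.injective h)
      · exact Or.inr (Or.inl (E.injective h))
      · exact Or.inr (Or.inr (by rw [← h, Equiv.symm_apply_apply]))
  choose μ hμ1 hμ2 hμ3 hμ4 using hthird
  refine ⟨a, b, E, μ, ha, hb, by rw [E1, hφ0], by rw [E2, hψ0], ?_, ?_, ?_, ?_, ?_, ?_, ?_⟩
  · intro v
    rcases hμ4 (μ v) v (hμ1 v).symm with h | h | h
    · exfalso
      apply hμ3 v
      have h5 := congrArg prd h
      rw [prd_nxt] at h5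
      exact h5.symm
    · exfalso
      apply hμ2 v
      have h5 := congrArg (nxt a b) h
      rw [nxt_prd] at h5
      exact h5.symm
    · exact h.symm
  · intro v h
    have := hμ1 v
    rw [h] at this
    exact this.ne rfl
  · intro z
    rw [on1]
    exact exists_congr fun i => by rw [E1]
  · intro z
    rw [on2]
    exact exists_congr fun i => by rw [E2]
  · exact fun v => ⟨hadj v, hone v⟩
  · intro v
    refine ⟨hμ1 v, ?_⟩
    rcases hw s(E v, E (μ v)) (hμ1 v) with h | h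
    · exfalso
      obtain ⟨t, ht⟩ := (hmem _).1 ((hT.weight s(E v, E (μ v)) (hμ1 v)).1 h)
      rw [Sym2.eq_iff] at ht
      rcases ht with ⟨h1, h2⟩ | ⟨h1, h2⟩
      · have h3 := E.injective h1
        have h4 := E.injective h2
        rw [← h3] at h4
        exact hμ2 v h4
      · have h3 := E.injective h1
        have h4 := E.injective h2
        apply hμ3 v
        rw [h4, h3, prd_nxt]
    · exact h
  · intro u v h
    rcases hμ4 u v h with h | h | h
    · exact Or.inl h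
    · exact Or.inr (Or.inl (by rw [h, nxt_prd]))
    · exact Or.inr (Or.inr h)

/-- the number of edges between the two circuits -/
lemma cross_card {G : SimpleGraph V} {a b : ℕ} (E : TT a b ≃ V) (μ : TT a b → TT a b)
    {C₁ C₂ : Finset (Sym2 V)}
    (o1 : ∀ z, On C₁ z ↔ ∃ i, E (Sum.inl i) = z) (o2 : ∀ z, On C₂ z ↔ ∃ j, E (Sum.inr j) = z)
    (h3 : ∀ v, G.Adj (E v) (E (μ v)))
    (h4 : ∀ u v, G.Adj (E u) (E v) → v = nxt a b u ∨ u = nxt a b v ∨ v = μ u) :
    {e | e ∈ G.edgeSet ∧ ∃ x y, e = s(x, y) ∧ On C₁ x ∧ On C₂ y}.ncard =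
      (univ.filter fun i : Fin (a + 1) => a < pos (μ (Sum.inl i))).card := by
  have hset : {e | e ∈ G.edgeSet ∧ ∃ x y, e = s(x, y) ∧ On C₁ x ∧ On C₂ y} =
      ↑((univ.filter fun i : Fin (a + 1) => a < pos (μ (Sum.inl i))).image
        fun i => s(E (Sum.inl i), E (μ (Sum.inl i)))) := by
    ext e
    rw [Finset.coe_image, Set.mem_ofPred_eq, Set.mem_image]
    constructor
    · rintro ⟨he, x, y, rfl, hx, hy⟩
      obtain ⟨i, rfl⟩ := (o1 x).1 hx
      obtain ⟨j, rfl⟩ := (o2 y).1 hy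
      have h5 : μ (Sum.inl i) = Sum.inr j := by
        rcases h4 _ _ he with h | h | h
        · rw [nxt_inl] at h; simp at h
        · rw [nxt_inr] at h; simp at h
        · exact h.symm
      refine ⟨i, ?_, ?_⟩
      · rw [Finset.coe_filter, Set.mem_ofPred_eq, h5]
        exact ⟨mem_univ _, by simp only [pos]; omega⟩
      · show s(E (Sum.inl i), E (μ (Sum.inl i))) = _
        rw [h5]
    · rintro ⟨i, hi, rfl⟩
      rw [Finset.coe_filter, Set.mem_ofPred_eq] at hi
      refine ⟨h3 _, _, _, rfl, (o1 _).2 ⟨i, rfl⟩, ?_⟩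
      rcases h : μ (Sum.inl i) with j | j
      · exfalso
        have h5 := hi.2
        rw [h] at h5
        simp only [pos] at h5
        have := j.isLt
        omega
      · exact (o2 _).2 ⟨j, rfl⟩
  rw [hset, Set.ncard_coe_finset, Finset.card_image_of_injOn]
  intro i hi j hj h
  rw [Finset.mem_coe, Finset.mem_filter] at hi hj
  replace h : s(E (Sum.inl i), E (μ (Sum.inl i))) = s(E (Sum.inl j), E (μ (Sum.inl j))) := h
  rw [Sym2.eq_iff] at h
  rcases h with ⟨h1, _⟩ | ⟨h1, _⟩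
  · exact Sum.inl_injective (E.injective h1)
  · exfalso
    have h5 := E.injective h1
    have h6 := hj.2
    rw [← h5] at h6
    simp only [pos] at h6
    have := i.isLt
    omega

/-- from a good colouring to a faithful cover -/
lemma cover_of_good {G : SimpleGraph V} {w : Sym2 V → ℕ} {a b : ℕ} (ha : 2 ≤ a) (hb : 2 ≤ b)
    (E : TT a b ≃ V) (μ : TT a b → TT a b) (hμ : ∀ v, μ (μ v) = v)
    (h1 : ∀ v, G.Adj (E v) (E (nxt a b v)) ∧ w s(E v, E (nxt a b v)) = 1)
    (h3 : ∀ v, G.Adj (E v) (E (μ v)) ∧ w s(E v, E (μ v)) = 2)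
    (h4 : ∀ u v, G.Adj (E u) (E v) → v = nxt a b u ∨ u = nxt a b v ∨ v = μ u)
    (hg : Good μ) : GE.HasFaithfulCover G w := by
  obtain ⟨f, hf⟩ := hg
  have : Fintype V := Fintype.ofEquiv _ E
  have hs : ∀ v, (((E.symm.trans (nxt a b)).trans E : Equiv.Perm V).symm) v =
      E (prd (E.symm v)) := by
    intro v
    rw [← nxt_symm]
    rfl
  have hs' : ∀ v, ((E.symm.trans (nxt a b)).trans E : Equiv.Perm V) v =
      E (nxt a b (E.symm v)) := fun v => rfl
  refine cover_of_colouring ((E.symm.trans (nxt a b)).trans E) (fun v => E (μ (E.symm v)))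
    ?_ ?_ ?_ ?_ ?_ (fun v => f (E.symm v)) ?_
  · intro v
    have := h1 (E.symm v)
    rw [Equiv.apply_symm_apply] at this
    rw [hs']
    exact this
  · intro v h
    rw [hs', hs', Equiv.symm_apply_apply] at h
    exact nxt_nxt ha hb (E.symm v) ((Equiv.eq_symm_apply E).2 h)
  · intro v
    have := h3 (E.symm v)
    rw [Equiv.apply_symm_apply] at this
    exact this
  · intro v
    show E (μ (E.symm (E (μ (E.symm v))))) = v
    rw [Equiv.symm_apply_apply, hμ, Equiv.apply_symm_apply]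
  · intro u v h
    rw [hs', hs']
    rcases h4 (E.symm u) (E.symm v) (by rw [Equiv.apply_symm_apply, Equiv.apply_symm_apply];
                                        exact h) with h | h | h
    · exact Or.inl (by rw [← h, Equiv.apply_symm_apply])
    · exact Or.inr (Or.inl (by rw [← h, Equiv.apply_symm_apply]))
    · exact Or.inr (Or.inr (by rw [← h, Equiv.apply_symm_apply]))
  · intro v
    have := hf (E.symm v)
    rw [hs, hs]
    show f (E.symm v) ≠ f (E.symm (E (prd (E.symm v)))) ∧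
      s(f (E.symm v), f (E.symm (E (prd (E.symm v))))) =
      s(f (E.symm (E (μ (E.symm v)))), f (E.symm (E (prd (E.symm (E (μ (E.symm v))))))))
    rw [Equiv.symm_apply_apply, Equiv.symm_apply_apply, Equiv.symm_apply_apply]
    exact this

lemma par_ne {n : ℕ} (hn : n % 2 = 1) (i : Fin (n + 1)) : (i - 1).val % 2 ≠ i.val % 2 := by
  by_cases hi : i = 0
  · subst hi
    rw [zero_sub, Fin.val_zero, show (-1 : Fin (n + 1)) = Fin.last n from ?_, Fin.val_last]
    · omega
    · exact (eq_neg_of_add_eq_zero_left (Fin.last_add_one n)).symm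
  · rw [Fin.val_sub_one_of_ne_zero hi]
    have : i.val ≠ 0 := fun h => hi (Fin.ext h)
    omega

lemma good_of_even {a b : ℕ} {μ : TT a b → TT a b} (hμ : ∀ v, μ (μ v) = v) (hμ' : ∀ v, μ v ≠ v)
    (hm : (univ.filter fun i : Fin (a + 1) => a < pos (μ (Sum.inl i))).card % 2 = 0) :
    Good μ := by
  have hcast : ∀ n : ℕ, (n : ZMod 2) = 0 → n % 2 = 0 := by
    intro n hn
    have := (ZMod.natCast_eq_zero_iff n 2).1 hn
    omega
  -- the chords inside the first circle
  have h1 : (univ.filter fun i : Fin (a + 1) => ¬ a < pos (μ (Sum.inl i))).card % 2 = 0 := by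
    apply hcast
    have hex : ∀ i : Fin (a + 1), ¬ a < pos (μ (Sum.inl i)) → ∃ j, μ (Sum.inl i) = Sum.inl j := by
      intro i hi
      rcases h : μ (Sum.inl i) with j | j
      · exact ⟨j, rfl⟩
      · rw [h] at hi; simp only [pos] at hi; omega
    obtain ⟨g, hg⟩ : ∃ g : Fin (a + 1) → Fin (a + 1),
        ∀ i, ¬ a < pos (μ (Sum.inl i)) → μ (Sum.inl i) = Sum.inl (g i) := by
      refine ⟨fun i => if h : ¬ a < pos (μ (Sum.inl i)) then (hex i h).choose else i, ?_⟩
      intro i hi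
      simp only [hi, not_false_eq_true, dite_true]
      exact (hex i hi).choose_spec
    have hg2 : ∀ i, ¬ a < pos (μ (Sum.inl i)) → μ (Sum.inl (g i)) = Sum.inl i := by
      intro i hi
      rw [← hg i hi, hμ]
    have hgm : ∀ i, ¬ a < pos (μ (Sum.inl i)) → ¬ a < pos (μ (Sum.inl (g i))) := by
      intro i hi
      rw [hg2 i hi]
      simp only [pos]
      have := i.isLt
      omega
    refine card_zero_of_inv _ g ?_ ?_ ?_
    · intro i hi
      rw [mem_filter] at hi ⊢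
      exact ⟨mem_univ _, hgm i hi.2⟩
    · intro i hi
      rw [mem_filter] at hi
      have h5 := hg (g i) (hgm i hi.2)
      rw [hg2 i hi.2] at h5
      exact (Sum.inl_injective h5).symm
    · intro i hi h
      rw [mem_filter] at hi
      have h5 := hg i hi.2
      rw [h] at h5
      exact hμ' _ h5
  have h2 : a % 2 = 1 := by
    have h3 := Finset.card_filter_add_card_filter_not (s := (univ : Finset (Fin (a + 1))))
      (fun i => a < pos (μ (Sum.inl i)))
    rw [Finset.card_univ, Fintype.card_fin] at h3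
    omega
  have h4 : b % 2 = 1 := by
    have h5 : ((univ : Finset (TT a b)).card : ZMod 2) = 0 :=
      card_zero_of_inv _ μ (fun _ _ => mem_univ _) (fun v _ => hμ v) (fun v _ => hμ' v)
    rw [Finset.card_univ, Fintype.card_sum, Fintype.card_fin, Fintype.card_fin] at h5
    have := hcast _ h5
    omega
  refine ⟨Sum.elim (fun i => if i.val % 2 = 0 then 0 else (1, 0))
    (fun i => if i.val % 2 = 0 then 0 else (1, 0)), ?_⟩
  have key : ∀ v : TT a b,
      (Sum.elim (fun i => if i.val % 2 = 0 then 0 else (1, 0))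
        (fun i => if i.val % 2 = 0 then 0 else (1, 0)) v : F4) ≠
      (Sum.elim (fun i => if i.val % 2 = 0 then 0 else (1, 0))
        (fun i => if i.val % 2 = 0 then 0 else (1, 0)) (prd v) : F4) ∧
      s((Sum.elim (fun i => if i.val % 2 = 0 then 0 else (1, 0))
        (fun i => if i.val % 2 = 0 then 0 else (1, 0)) v : F4),
      (Sum.elim (fun i => if i.val % 2 = 0 then 0 else (1, 0))
        (fun i => if i.val % 2 = 0 then 0 else (1, 0)) (prd v) : F4)) = s(0, (1, 0)) := by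
    have h01 : (0 : F4) ≠ (1, 0) := by decide
    rintro (i | i)
    · have := par_ne h2 i
      simp only [prd, Sum.elim_inl]
      by_cases h6 : i.val % 2 = 0
      · have h7 : ¬ (i - 1).val % 2 = 0 := by omega
        rw [if_pos h6, if_neg h7]
        exact ⟨h01, rfl⟩
      · have h7 : (i - 1).val % 2 = 0 := by omega
        rw [if_neg h6, if_pos h7]
        exact ⟨h01.symm, Sym2.eq_swap⟩
    · have := par_ne h4 i
      simp only [prd, Sum.elim_inr]
      by_cases h6 : i.val % 2 = 0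
      · have h7 : ¬ (i - 1).val % 2 = 0 := by omega
        rw [if_pos h6, if_neg h7]
        exact ⟨h01, rfl⟩
      · have h7 : (i - 1).val % 2 = 0 := by omega
        rw [if_neg h6, if_pos h7]
        exact ⟨h01.symm, Sym2.eq_swap⟩
  intro v
  exact ⟨(key v).1, (key v).2.trans (key (μ v)).2.symm⟩

/-- **Three modulo four.** -/
theorem cover_three {G : SimpleGraph V} {w : Sym2 V → ℕ} {C₁ C₂ : Finset (Sym2 V)} {m : ℕ}
    (hG : GE.IsCubic G) (hw : GE.IsWeight12 G w) (hT : TwoCircuits G w C₁ C₂ m)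
    (hm : m % 4 = 3) : GE.HasFaithfulCover G w := by
  obtain ⟨x, y, hx, hy, hxy⟩ : ∃ x y, On C₁ x ∧ On C₂ y ∧ G.Adj x y := by
    have h0 : {e | e ∈ G.edgeSet ∧ ∃ x y, e = s(x, y) ∧ On C₁ x ∧ On C₂ y}.ncard ≠ 0 := by
      rw [hT.cross]; omega
    obtain ⟨e, he, x, y, rfl, hx, hy⟩ := Set.nonempty_of_ncard_ne_zero h0
    exact ⟨x, y, hx, hy, he⟩
  obtain ⟨a, b, E, μ, ha, hb, hEx, hEy, hμ, hμ', o1, o2, h1, h3, h4⟩ := extract hG hw hT hx hy
  have hz : μ (Sum.inl 0) = Sum.inr 0 := by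
    rcases h4 (Sum.inl 0) (Sum.inr 0) (by rw [hEx, hEy]; exact hxy) with h | h | h
    · rw [nxt_inl] at h; simp at h
    · rw [nxt_inr] at h; simp at h
    · exact h.symm
  have hc := cross_card E μ o1 o2 (fun v => (h3 v).1) h4
  rw [hT.cross] at hc
  exact cover_of_good ha hb E μ hμ h1 h3 h4 (good_of_cross hμ hμ' hz (by rw [← hc]; exact hm))

/-- **Even.** -/
theorem cover_even {G : SimpleGraph V} {w : Sym2 V → ℕ} {C₁ C₂ : Finset (Sym2 V)} {m : ℕ}
    (hG : GE.IsCubic G) (hw : GE.IsWeight12 G w) (hT : TwoCircuits G w C₁ C₂ m)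
    (hm : m % 2 = 0) : GE.HasFaithfulCover G w := by
  have hon : ∀ {C : Finset (Sym2 V)}, GE.IsCircuit G C → ∃ x, On C x := by
    intro C hC
    obtain ⟨a, φ, _, _, _, hmem⟩ := cyc_param hC
    exact ⟨φ 0, _, (hmem _).2 ⟨0, rfl⟩, Sym2.mem_mk_left _ _⟩
  obtain ⟨x, hx⟩ := hon hT.circ₁
  obtain ⟨y, hy⟩ := hon hT.circ₂
  obtain ⟨a, b, E, μ, ha, hb, hEx, hEy, hμ, hμ', o1, o2, h1, h3, h4⟩ := extract hG hw hT hx hy
  have hc := cross_card E μ o1 o2 (fun v => (h3 v).1) h4
  rw [hT.cross] at hc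
  exact cover_of_good ha hb E μ hμ h1 h3 h4 (good_of_even hμ hμ' (by rw [← hc]; exact hm))

/-- A pair without faithful cover has `1` modulo `4` cross edges. -/
theorem one_of_contra {G : SimpleGraph V} {w : Sym2 V → ℕ} {C₁ C₂ : Finset (Sym2 V)} {m : ℕ}
    (hG : GE.IsCubic G) (hw : GE.IsWeight12 G w) (hT : TwoCircuits G w C₁ C₂ m)
    (h : ¬ GE.HasFaithfulCover G w) : m % 4 = 1 := by
  by_contra h1
  have h2 : m % 2 = 0 ∨ m % 4 = 3 := by omega
  rcases h2 with h2 | h2
  · exact h (cover_even hG hw hT h2)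
  · exact h (cover_three hG hw hT h2)

end Pool.Agent.H34TC
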