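import Mathlib

/-!
# The parity lemma (helper34, MP_472c72_co)

For a symmetric matrix `A` over `ZMod 2` the number of maps `c : R → ZMod 3` for which every `u` has
an even number of neighbours of another colour changes its sign modulo 4 if an edge is toggled.
-/

open Finset

namespace Pool.Agent.H34TC

/-- indicator of different colours -/
def ne (i j : ZMod 3) : ZMod 2 := if i = j then 0 else 1

lemma ne_self (i : ZMod 3) : ne i i = 0 := by simp [ne]

lemma ne_comm (i j : ZMod 3) : ne i j = ne j i := by
  revert i j; decide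

lemma ne_neg (i j : ZMod 3) : ne (-i) (-j) = ne i j := by
  revert i j; decide

lemma ne_eq_one {i j : ZMod 3} (h : i ≠ j) : ne i j = 1 := by simp [ne, h]

lemma ne_ne_zero {i j : ZMod 3} (h : ne i j ≠ 0) : i ≠ j := by
  rintro rfl; exact h (ne_self _)

lemma two_eq (x : ZMod 2) : x + x = 0 := by revert x; decide

section inv

variable {α : Type*} [DecidableEq α]

lemma card_zero_of_inv (s : Finset α) (g : α → α) (hg : ∀ a ∈ s, g a ∈ s)
    (hinv : ∀ a ∈ s, g (g a) = a) (hfix : ∀ a ∈ s, g a ≠ a) : (s.card : ZMod 2) = 0 := by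
  have h : ∑ _a ∈ s, (1 : ZMod 2) = 0 :=
    Finset.sum_involution (fun a _ => g a) (fun a _ => by decide) (fun a ha _ => hfix a ha)
      (fun a ha => hg a ha) (fun a ha => hinv a ha)
  simpa using h

lemma card_one_of_inv (s : Finset α) (g : α → α) (x₀ : α) (hx₀ : x₀ ∈ s)
    (hg : ∀ a ∈ s, g a ∈ s) (hinv : ∀ a ∈ s, g (g a) = a) (hgx : g x₀ = x₀)
    (hfix : ∀ a ∈ s, g a = a → a = x₀) : (s.card : ZMod 2) = 1 := by
  have h := card_zero_of_inv (s.erase x₀) g
    (fun a ha => by
      rw [mem_erase] at ha ⊢
      refine ⟨fun h => ha.1 ?_, hg a ha.2⟩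
      rw [← hinv a ha.2, h, hgx])
    (fun a ha => hinv a (mem_of_mem_erase ha))
    (fun a ha h => (mem_erase.1 ha).1 (hfix a (mem_of_mem_erase ha) h))
  have h2 := Finset.card_erase_add_one hx₀
  rw [← h2]
  push_cast
  rw [h, zero_add]

end inv

variable {R : Type*} [Fintype R] [DecidableEq R]

/-- parity of the number of neighbours of another colour -/
def dd (A : R → R → ZMod 2) (c : R → ZMod 3) (u : R) : ZMod 2 := ∑ v, A u v * ne (c v) (c u)

/-- every vertex has an even number of neighbours of another colour -/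
def Val (A : R → R → ZMod 2) (c : R → ZMod 3) : Prop := ∀ u, dd A c u = 0

instance (A : R → R → ZMod 2) : DecidablePred (Val A) := fun c => by
  unfold Val; infer_instance

lemma dd_neg (A : R → R → ZMod 2) (c : R → ZMod 3) (u : R) :
    dd A (fun w => - c w) u = dd A c u := by
  simp [dd, ne_neg]

lemma dd_perm (A : R → R → ZMod 2) (σ : Equiv.Perm (ZMod 3)) (c : R → ZMod 3) (u : R) :
    dd A (fun w => σ (c w)) u = dd A c u := by
  unfold dd
  refine Finset.sum_congr rfl fun v _ => ?_
  congr 1
  simp [ne]

lemma sum_symm_zero (f : R → R → ZMod 2) (hs : ∀ x y, f x y = f y x) (h0 : ∀ x, f x x = 0) :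
    ∑ x, ∑ y, f x y = 0 := by
  rw [← Fintype.sum_prod_type' (f := f)]
  refine Finset.sum_involution (fun a _ => (a.2, a.1)) ?_ ?_ (fun _ _ => mem_univ _) ?_
  · rintro ⟨x, y⟩ _
    simp only
    rw [hs x y]; exact two_eq _
  · rintro ⟨x, y⟩ _ h h2
    simp only [Prod.mk.injEq] at h2
    obtain ⟨rfl, _⟩ := h2
    exact h (h0 _)
  · rintro ⟨x, y⟩ _; rfl

lemma handshake (A : R → R → ZMod 2) (hA : ∀ x y, A x y = A y x) (c : R → ZMod 3) :
    ∑ u, dd A c u = 0 := by
  unfold dd
  refine sum_symm_zero _ (fun x y => ?_) (fun x => ?_)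
  · rw [hA x y, ne_comm]
  · rw [ne_self, mul_zero]

/-! ### The number of colourings with prescribed values at `u`, `v` -/

/-- the factor of a choice -/
def tau (A : R → R → ZMod 2) (c : R → ZMod 3) (w : R) : Option R → ZMod 2
  | none => 1
  | some x => A w x * ne (c x) (c w)

lemma prod_one_add (S : Finset R) (x : R → ZMod 2) :
    ∏ w ∈ S, (1 + x w) = if ∀ w ∈ S, x w = 0 then 1 else 0 := by
  split_ifs with h
  · exact Finset.prod_eq_one fun w hw => by rw [h w hw, add_zero]
  · push Not at h
    obtain ⟨w, hw, hx⟩ := h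
    refine Finset.prod_eq_zero hw ?_
    have : ∀ y : ZMod 2, y ≠ 0 → 1 + y = 0 := by decide
    exact this _ hx

/-- the colourings with `c u = 0`, `c v = 1` -/
def KK (u v : R) : Finset (R → ZMod 3) := univ.filter fun c => c u = 0 ∧ c v = 1

lemma card_KK {u v : R} (huv : u ≠ v) : ((KK u v).card : ZMod 2) = 1 := by
  refine card_one_of_inv (KK u v) (fun c w => if w = u ∨ w = v then c w else - c w)
    (fun w => if w = v then 1 else 0) ?_ ?_ ?_ ?_ ?_
  · simp [KK, huv]
  · intro c hc
    simpa [KK] using hc
  · intro c _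
    funext w
    by_cases h : w = u ∨ w = v <;> simp [h]
  · funext w
    by_cases h : w = v
    · simp [h]
    · simp [h]
  · intro c hc h
    simp only [KK, mem_filter, mem_univ, true_and] at hc
    funext w
    by_cases h1 : w = v
    · simp [h1, hc.2]
    · by_cases h2 : w = u
      · simp [h2, huv, hc.1]
      · have h3 := congrFun h w
        simp only [h1, h2, or_self, if_false] at h3
        have : ∀ y : ZMod 3, - y = y → y = 0 := by decide
        simp [h1, this _ h3]

lemma sum_choice_zero (A : R → R → ZMod 2) {u v : R} (π : R → Option R)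
    (hu : π u = none) (hv : π v = none) (hπ : ∃ w, π w ≠ none) :
    ∑ c ∈ KK u v, ∏ w, tau A c w (π w) = 0 := by
  classical
  by_cases h1 : ∃ w₀, π w₀ ≠ none ∧ ∀ w, π w ≠ some w₀
  · obtain ⟨w₀, hw₀, hno⟩ := h1
    obtain ⟨x₀, hx₀⟩ := Option.ne_none_iff_exists'.1 hw₀
    have hwu : w₀ ≠ u := by rintro rfl; exact hw₀ hu
    have hwv : w₀ ≠ v := by rintro rfl; exact hw₀ hv
    have hzero : ∀ c : R → ZMod 3, c x₀ = c w₀ → ∏ w, tau A c w (π w) = 0 := by
      intro c hc
      refine Finset.prod_eq_zero (mem_univ w₀) ?_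
      rw [hx₀]; simp [tau, hc, ne_self]
    set g : (R → ZMod 3) → (R → ZMod 3) := fun c =>
      if c x₀ = c w₀ then c else Function.update c w₀ (- c x₀ - c w₀) with hg
    have hx : ∀ c : R → ZMod 3, c x₀ ≠ c w₀ → x₀ ≠ w₀ := by
      rintro c hc rfl; exact hc rfl
    have hd : ∀ a b : ZMod 3, a ≠ b → a ≠ -a - b := by decide
    have hd2 : ∀ a b : ZMod 3, -a - (-a - b) = b := by decide
    have hd3 : ∀ a b : ZMod 3, a ≠ b → -a - b ≠ b := by decide
    have hinvar : ∀ c : R → ZMod 3, c x₀ ≠ c w₀ →
        ∏ w, tau A (g c) w (π w) = ∏ w, tau A c w (π w) := by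
      intro c hc
      refine Finset.prod_congr rfl fun w _ => ?_
      have hgc : g c = Function.update c w₀ (- c x₀ - c w₀) := by simp [hg, hc]
      rw [hgc]
      by_cases hw : w = w₀
      · subst hw
        rw [hx₀]
        simp only [tau, Function.update_self, Function.update_of_ne (hx c hc)]
        rw [ne_eq_one (hd _ _ hc), ne_eq_one hc]
      · rcases hp : π w with _ | x
        · rfl
        · have hxw : x ≠ w₀ := by rintro rfl; exact hno w hp
          simp only [tau, Function.update_of_ne hw, Function.update_of_ne hxw]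
    refine Finset.sum_involution (fun c _ => g c) ?_ ?_ ?_ ?_
    · intro c _
      by_cases hc : c x₀ = c w₀
      · have : g c = c := by simp [hg, hc]
        rw [this, hzero c hc, add_zero]
      · rw [hinvar c hc]; exact two_eq _
    · intro c _ hne h
      by_cases hc : c x₀ = c w₀
      · exact hne (hzero c hc)
      · have h2 := congrFun h w₀
        simp only [hg, hc, if_false, Function.update_self] at h2
        exact hd3 _ _ hc h2
    · intro c hcK
      by_cases hc : c x₀ = c w₀
      · have : g c = c := by simp [hg, hc]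
        rwa [this]
      · have : g c = Function.update c w₀ (- c x₀ - c w₀) := by simp [hg, hc]
        rw [this]
        simp only [KK, mem_filter, mem_univ, true_and] at hcK ⊢
        rw [Function.update_of_ne hwu.symm, Function.update_of_ne hwv.symm]
        exact hcK
    · intro c _
      by_cases hc : c x₀ = c w₀
      · have : g c = c := by simp [hg, hc]
        rw [this, this]
      · have h1 : g c = Function.update c w₀ (- c x₀ - c w₀) := by simp [hg, hc]
        have h2 : (g c) x₀ ≠ (g c) w₀ := by
          rw [h1, Function.update_self, Function.update_of_ne (hx c hc)]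
          exact hd _ _ hc
        have h3 : g (g c) = Function.update (g c) w₀ (- (g c) x₀ - (g c) w₀) := if_neg h2
        rw [h3, h1]
        rw [Function.update_self, Function.update_of_ne (hx c hc), hd2]
        simp
  · push Not at h1
    set W : Finset R := univ.filter fun w => π w ≠ none with hW
    have hsub : W ⊆ W.image fun w => (π w).getD w := by
      intro w hw
      obtain ⟨x, hx⟩ := h1 w (by simpa [hW] using hw)
      refine mem_image.2 ⟨x, by simp [hW, hx], by simp [hx]⟩
    have heq := Finset.eq_of_subset_of_card_le hsub Finset.card_image_le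
    have hmem : ∀ w x, π w = some x → π x ≠ none := by
      intro w x hx
      have h2 : x ∈ W := by
        rw [heq]
        exact mem_image.2 ⟨w, by simp [hW, hx], by simp [hx]⟩
      simpa [hW] using h2
    set g : (R → ZMod 3) → (R → ZMod 3) := fun c w => if π w = none then c w else - c w with hg
    have hinvar : ∀ c : R → ZMod 3,
        ∏ w, tau A (g c) w (π w) = ∏ w, tau A c w (π w) := by
      intro c
      refine Finset.prod_congr rfl fun w _ => ?_
      rcases hp : π w with _ | x
      · rfl
      · have h2 := hmem w x hp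
        simp [tau, hg, hp, h2, ne_neg]
    refine Finset.sum_involution (fun c _ => g c) ?_ ?_ ?_ ?_
    · intro c _
      rw [hinvar c]; exact two_eq _
    · intro c _ hne h
      obtain ⟨w, hw⟩ := hπ
      obtain ⟨x, hx⟩ := Option.ne_none_iff_exists'.1 hw
      apply hne
      refine Finset.prod_eq_zero (mem_univ w) ?_
      have hd : ∀ y : ZMod 3, - y = y → y = 0 := by decide
      have h2 := congrFun h w
      have h3 := congrFun h x
      simp only [hg, hw, if_false] at h2
      simp only [hg, hmem w x hx, if_false] at h3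
      rw [hx]
      simp [tau, hd _ h2, hd _ h3, ne_self]
    · intro c hcK
      simp only [KK, mem_filter, mem_univ, true_and] at hcK ⊢
      simpa [hg, hu, hv] using hcK
    · intro c _
      funext w
      by_cases h : π w = none <;> simp [hg, h]

lemma card_prescribed (A : R → R → ZMod 2) {u v : R} (huv : u ≠ v) :
    (((KK u v).filter fun c => ∀ w, w ≠ u → w ≠ v → dd A c w = 0).card : ZMod 2) = 1 := by
  classical
  set S : Finset R := univ.filter fun w => w ≠ u ∧ w ≠ v with hS
  set t : R → Finset (Option R) := fun w => if w ∈ S then univ else {none} with ht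
  have h1 : (((KK u v).filter fun c => ∀ w, w ≠ u → w ≠ v → dd A c w = 0).card : ZMod 2) =
      ∑ c ∈ KK u v, ∏ w, ∑ o ∈ t w, tau A c w o := by
    rw [Finset.card_filter]
    push_cast
    refine Finset.sum_congr rfl fun c _ => ?_
    have h2 : ∏ w, ∑ o ∈ t w, tau A c w o = ∏ w ∈ S, (1 + dd A c w) := by
      rw [← Finset.prod_subset (Finset.subset_univ S)]
      · refine Finset.prod_congr rfl fun w hw => ?_
        simp only [ht, hw, if_true]
        rw [Fintype.sum_option]
        rfl
      · intro w _ hw
        simp [ht, hw, tau]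
    rw [h2, prod_one_add]
    congr 1
    simp [hS]
  rw [h1]
  have h3 : ∀ c : R → ZMod 3, ∏ w, ∑ o ∈ t w, tau A c w o =
      ∑ π ∈ Fintype.piFinset t, ∏ w, tau A c w (π w) := fun c => Finset.prod_univ_sum t _
  simp only [h3]
  rw [Finset.sum_comm, Finset.sum_eq_single (fun _ => none)]
  · simp only [tau, Finset.prod_const_one, Finset.sum_const, nsmul_eq_mul, mul_one]
    exact card_KK huv
  · intro π hπ hne
    rw [Fintype.mem_piFinset] at hπ
    refine sum_choice_zero A π ?_ ?_ ?_
    · have := hπ u
      simpa [ht, hS] using this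
    · have := hπ v
      simpa [ht, hS] using this
    · by_contra hcon
      push Not at hcon
      exact hne (funext hcon)
  · intro h
    exfalso
    apply h
    rw [Fintype.mem_piFinset]
    intro w
    by_cases hw : w ∈ S <;> simp [ht, hw]

/-! ### Toggling an edge -/

/-- the number of valid colourings -/
def num (A : R → R → ZMod 2) : ℕ := (univ.filter (Val A)).card

lemma num_odd (A : R → R → ZMod 2) : (num A : ZMod 2) = 1 := by
  refine card_one_of_inv _ (fun c w => - c w) (fun _ => 0) ?_ ?_ ?_ ?_ ?_
  · simp [Val, dd, ne_self]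
  · intro c hc
    simp only [mem_filter, mem_univ, true_and] at hc ⊢
    intro u
    rw [dd_neg]; exact hc u
  · intro c _; simp
  · simp
  · intro c _ h
    funext w
    have hd : ∀ y : ZMod 3, - y = y → y = 0 := by decide
    exact hd _ (congrFun h w)

/-- toggle the edge `u v` -/
def tog (A : R → R → ZMod 2) (u v : R) : R → R → ZMod 2 := fun x y =>
  A x y + if (x = u ∧ y = v) ∨ (x = v ∧ y = u) then 1 else 0

lemma dd_tog (A : R → R → ZMod 2) {u v : R} (huv : u ≠ v) (c : R → ZMod 3) (x : R) :
    dd (tog A u v) c x = dd A c x +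
      ((if x = u then ne (c v) (c u) else 0) + if x = v then ne (c u) (c v) else 0) := by
  unfold dd tog
  simp only [add_mul, Finset.sum_add_distrib]
  congr 1
  by_cases hx : x = u
  · subst hx
    have hxv : ¬ x = v := huv
    simp only [true_and, hxv, false_and, or_false, if_true, if_false, add_zero]
    simp [ite_mul]
  · by_cases hx2 : x = v
    · subst hx2
      simp [huv.symm, ite_mul]
    · simp [hx, hx2]

lemma val_tog_eq (A : R → R → ZMod 2) {u v : R} (huv : u ≠ v) (c : R → ZMod 3)
    (hc : c u = c v) : Val (tog A u v) c ↔ Val A c := by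
  unfold Val
  refine forall_congr' fun x => ?_
  rw [dd_tog A huv]
  simp [hc, ne_self]

lemma split_ne (A : R → R → ZMod 2) (hA : ∀ x y, A x y = A y x) {u v : R} (huv : u ≠ v)
    (c : R → ZMod 3) (hc : c u ≠ c v) :
    (∀ w, w ≠ u → w ≠ v → dd A c w = 0) ↔ (Val A c ∨ Val (tog A u v) c) := by
  constructor
  · intro h
    have hs := handshake A hA c
    have hs2 : dd A c u + dd A c v = 0 := by
      rw [← hs, ← Finset.sum_subset (Finset.subset_univ {u, v})]
      · rw [Finset.sum_pair huv]
      · intro x _ hx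
        simp only [mem_insert, mem_singleton, not_or] at hx
        exact h x hx.1 hx.2
    have hd : ∀ a b : ZMod 2, a + b = 0 → (a = 0 ∧ b = 0) ∨ (a = 1 ∧ b = 1) := by decide
    rcases hd _ _ hs2 with ⟨h1, h2⟩ | ⟨h1, h2⟩
    · left
      intro x
      by_cases hxu : x = u
      · rw [hxu]; exact h1
      · by_cases hxv : x = v
        · rw [hxv]; exact h2
        · exact h x hxu hxv
    · right
      intro x
      rw [dd_tog A huv]
      by_cases hxu : x = u
      · subst hxu
        rw [h1, if_pos rfl, if_neg huv, ne_eq_one (Ne.symm hc)]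
        decide
      · by_cases hxv : x = v
        · subst hxv
          rw [h2, if_neg hxu, if_pos rfl, ne_eq_one hc]
          decide
        · rw [h x hxu hxv, if_neg hxu, if_neg hxv]; decide
  · rintro (h | h) w hwu hwv
    · exact h w
    · have := h w
      rw [dd_tog A huv, if_neg hwu, if_neg hwv] at this
      simpa using this

lemma not_both (A : R → R → ZMod 2) {u v : R} (huv : u ≠ v)
    (c : R → ZMod 3) (hc : c u ≠ c v) (h1 : Val A c) (h2 : Val (tog A u v) c) : False := by
  have := h2 u
  rw [dd_tog A huv, h1 u, if_pos rfl, if_neg huv, ne_eq_one (Ne.symm hc)] at this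
  revert this; decide

lemma exists_perm_pair {i j : ZMod 3} (hij : i ≠ j) :
    ∃ σ : Equiv.Perm (ZMod 3), σ 0 = i ∧ σ 1 = j := by
  revert i j; decide

lemma exists_perm_one (i : ZMod 3) : ∃ σ : Equiv.Perm (ZMod 3), σ 0 = i :=
  ⟨Equiv.swap 0 i, Equiv.swap_apply_left 0 i⟩

/-- transport of counts under a permutation of the colours -/
lemma card_perm (P : (R → ZMod 3) → Prop) [DecidablePred P]
    (hP : ∀ (σ : Equiv.Perm (ZMod 3)) c, P c → P (fun w => σ (c w))) (u v : R)
    (σ : Equiv.Perm (ZMod 3)) (i j : ZMod 3) :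
    (univ.filter fun c : R → ZMod 3 => P c ∧ c u = i ∧ c v = j).card =
      (univ.filter fun c : R → ZMod 3 => P c ∧ c u = σ i ∧ c v = σ j).card := by
  refine Finset.card_bij (fun c _ => fun w => σ (c w)) ?_ ?_ ?_
  · intro c hc
    simp only [mem_filter, mem_univ, true_and] at hc ⊢
    exact ⟨hP σ c hc.1, by rw [hc.2.1], by rw [hc.2.2]⟩
  · intro c _ c' _ h
    funext w
    exact σ.injective (congrFun h w)
  · intro c hc
    simp only [mem_filter, mem_univ, true_and] at hc
    refine ⟨fun w => σ.symm (c w), ?_, ?_⟩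
    · simp only [mem_filter, mem_univ, true_and]
      exact ⟨hP σ.symm c hc.1, by rw [hc.2.1, Equiv.symm_apply_apply],
        by rw [hc.2.2, Equiv.symm_apply_apply]⟩
    · funext w; simp

lemma card_by_values (P : (R → ZMod 3) → Prop) [DecidablePred P] (u v : R) :
    (univ.filter fun c : R → ZMod 3 => P c).card =
      ∑ ij : ZMod 3 × ZMod 3,
        (univ.filter fun c : R → ZMod 3 => P c ∧ c u = ij.1 ∧ c v = ij.2).card := by
  rw [Finset.card_eq_sum_card_fiberwise (f := fun c : R → ZMod 3 => (c u, c v)) (t := univ)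
    (fun _ _ => mem_coe.2 (mem_univ _))]
  refine Finset.sum_congr rfl fun ij _ => ?_
  congr 1
  ext c
  simp only [mem_filter, mem_univ, true_and, Prod.ext_iff]

theorem toggle (A : R → R → ZMod 2) (hA : ∀ x y, A x y = A y x) {u v : R} (huv : u ≠ v) :
    (num A + num (tog A u v)) % 4 = 0 := by
  classical
  -- the equal part
  set P : (R → ZMod 3) → Prop := fun c => Val A c ∧ c u = c v with hP
  have hPp : ∀ (σ : Equiv.Perm (ZMod 3)) c, P c → P (fun w => σ (c w)) := by
    intro σ c hc
    exact ⟨fun x => by rw [dd_perm]; exact hc.1 x, congrArg σ hc.2⟩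
  set Q : (R → ZMod 3) → Prop := fun c =>
    c u ≠ c v ∧ ∀ w, w ≠ u → w ≠ v → dd A c w = 0 with hQ
  have hQp : ∀ (σ : Equiv.Perm (ZMod 3)) c, Q c → Q (fun w => σ (c w)) := by
    intro σ c hc
    exact ⟨fun h => hc.1 (σ.injective h), fun w h1 h2 => by rw [dd_perm]; exact hc.2 w h1 h2⟩
  set a : ℕ := (univ.filter fun c : R → ZMod 3 => P c ∧ c u = 0 ∧ c v = 0).card with ha
  set t : ℕ := (univ.filter fun c : R → ZMod 3 => Q c ∧ c u = 0 ∧ c v = 1).card with ht
  have hcP : (univ.filter fun c : R → ZMod 3 => P c).card = 3 * a := by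
    rw [card_by_values P u v]
    have : ∀ ij : ZMod 3 × ZMod 3,
        (univ.filter fun c : R → ZMod 3 => P c ∧ c u = ij.1 ∧ c v = ij.2).card =
          if ij.1 = ij.2 then a else 0 := by
      rintro ⟨i, j⟩
      simp only
      split_ifs with h
      · subst h
        obtain ⟨σ, hσ⟩ := exists_perm_one i
        rw [ha, card_perm P hPp u v σ 0 0, hσ]
      · rw [Finset.card_eq_zero, Finset.filter_eq_empty_iff]
        rintro c _ ⟨h1, h2, h3⟩
        exact h (by rw [← h2, ← h3]; exact h1.2)
    rw [Finset.sum_congr rfl fun ij _ => this ij, ← Finset.sum_filter, Finset.sum_const,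
      smul_eq_mul]
    congr 1
  have hcQ : (univ.filter fun c : R → ZMod 3 => Q c).card = 6 * t := by
    rw [card_by_values Q u v]
    have : ∀ ij : ZMod 3 × ZMod 3,
        (univ.filter fun c : R → ZMod 3 => Q c ∧ c u = ij.1 ∧ c v = ij.2).card =
          if ij.1 ≠ ij.2 then t else 0 := by
      rintro ⟨i, j⟩
      simp only
      split_ifs with h
      · obtain ⟨σ, hσ, hσ2⟩ := exists_perm_pair h
        rw [ht, card_perm Q hQp u v σ 0 1, hσ, hσ2]
      · push Not at h
        rw [Finset.card_eq_zero, Finset.filter_eq_empty_iff]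
        rintro c _ ⟨h1, h2, h3⟩
        exact h1.1 (by rw [h2, h3]; exact h)
    rw [Finset.sum_congr rfl fun ij _ => this ij, ← Finset.sum_filter, Finset.sum_const,
      smul_eq_mul]
    congr 1
  have ha1 : a % 2 = 1 := by
    have h : (a : ZMod 2) = 1 := by
      rw [ha]
      refine card_one_of_inv _ (fun c w => - c w) (fun _ => 0) ?_ ?_ ?_ ?_ ?_
      · simp [hP, Val, dd, ne_self]
      · intro c hc
        simp only [mem_filter, mem_univ, true_and] at hc ⊢
        refine ⟨⟨fun x => by rw [dd_neg]; exact hc.1.1 x, congrArg Neg.neg hc.1.2⟩,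
          by rw [hc.2.1]; decide,
          by rw [hc.2.2]; decide⟩
      · intro c _; simp
      · simp
      · intro c _ h
        funext w
        have hd : ∀ y : ZMod 3, - y = y → y = 0 := by decide
        exact hd _ (congrFun h w)
    have h2 : ((a : ℕ) : ZMod 2) = ((1 : ℕ) : ZMod 2) := by rw [h]; rfl
    exact (ZMod.natCast_eq_natCast_iff' _ _ _).1 h2
  have ht1 : t % 2 = 1 := by
    have h : (t : ZMod 2) = 1 := by
      rw [← card_prescribed A huv, ht]
      congr 2
      ext c
      simp only [hQ, KK, mem_filter, mem_univ, true_and]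
      constructor
      · rintro ⟨⟨_, h1⟩, h2, h3⟩
        exact ⟨⟨h2, h3⟩, h1⟩
      · rintro ⟨⟨h2, h3⟩, h1⟩
        refine ⟨⟨?_, h1⟩, h2, h3⟩
        rw [h2, h3]; decide
    have h2 : ((t : ℕ) : ZMod 2) = ((1 : ℕ) : ZMod 2) := by rw [h]; rfl
    exact (ZMod.natCast_eq_natCast_iff' _ _ _).1 h2
  -- splitting
  have hn0 : num A = (univ.filter fun c : R → ZMod 3 => P c).card +
      (univ.filter fun c : R → ZMod 3 => Val A c ∧ c u ≠ c v).card := by
    unfold num
    rw [← Finset.card_filter_add_card_filter_not (s := univ.filter (Val A)) (fun c => c u = c v)]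
    congr 1
    · rw [Finset.filter_filter]
    · rw [Finset.filter_filter]
  have hn1 : num (tog A u v) = (univ.filter fun c : R → ZMod 3 => P c).card +
      (univ.filter fun c : R → ZMod 3 => Val (tog A u v) c ∧ c u ≠ c v).card := by
    unfold num
    rw [← Finset.card_filter_add_card_filter_not (s := univ.filter (Val (tog A u v)))
      (fun c => c u = c v)]
    congr 1
    · rw [Finset.filter_filter]
      congr 1
      ext c
      simp only [mem_filter, mem_univ, true_and, hP]
      constructor
      · rintro ⟨h1, h2⟩; exact ⟨(val_tog_eq A huv c h2).1 h1, h2⟩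
      · rintro ⟨h1, h2⟩; exact ⟨(val_tog_eq A huv c h2).2 h1, h2⟩
    · rw [Finset.filter_filter]
  have hq : (univ.filter fun c : R → ZMod 3 => Q c).card =
      (univ.filter fun c : R → ZMod 3 => Val A c ∧ c u ≠ c v).card +
      (univ.filter fun c : R → ZMod 3 => Val (tog A u v) c ∧ c u ≠ c v).card := by
    rw [← Finset.card_union_of_disjoint]
    · congr 1
      ext c
      simp only [mem_filter, mem_univ, true_and, mem_union, hQ]
      constructor
      · rintro ⟨h1, h2⟩
        rcases (split_ne A hA huv c h1).1 h2 with h | h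
        · exact Or.inl ⟨h, h1⟩
        · exact Or.inr ⟨h, h1⟩
      · rintro (⟨h, h1⟩ | ⟨h, h1⟩)
        · exact ⟨h1, (split_ne A hA huv c h1).2 (Or.inl h)⟩
        · exact ⟨h1, (split_ne A hA huv c h1).2 (Or.inr h)⟩
    · rw [Finset.disjoint_left]
      intro c h1 h2
      simp only [mem_filter, mem_univ, true_and] at h1 h2
      exact not_both A huv c h1.2 h1.1 h2.1
  omega

/-! ### Toggling a set of edges -/

/-- toggle all edges of `P` -/
def togP (A : R → R → ZMod 2) (P : Finset (Sym2 R)) : R → R → ZMod 2 := fun x y =>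
  A x y + if s(x, y) ∈ P then 1 else 0

lemma togP_symm (A : R → R → ZMod 2) (hA : ∀ x y, A x y = A y x) (P : Finset (Sym2 R)) (x y : R) :
    togP A P x y = togP A P y x := by
  unfold togP
  rw [hA x y, Sym2.eq_swap]

lemma num_togP (A : R → R → ZMod 2) (hA : ∀ x y, A x y = A y x) (P : Finset (Sym2 R))
    (hP : ∀ e ∈ P, ¬ e.IsDiag) : (num (togP A P) : ZMod 4) = (-1) ^ P.card * num A := by
  induction P using Finset.induction_on with
  | empty =>
    have : togP A ∅ = A := by funext x y; simp [togP]
    rw [this]; simp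
  | insert e P he ih =>
    have ih' := ih fun e' h' => hP e' (mem_insert_of_mem h')
    induction e using Sym2.ind with
    | _ u v =>
      have huv : u ≠ v := by
        have := hP s(u, v) (mem_insert_self _ _)
        simpa using this
      have h1 : togP A (insert s(u, v) P) = tog (togP A P) u v := by
        funext x y
        unfold togP tog
        rw [add_assoc]
        congr 1
        by_cases h : (x = u ∧ y = v) ∨ (x = v ∧ y = u)
        · have h2 : s(x, y) = s(u, v) := by rw [Sym2.eq_iff]; exact h
          rw [h2, if_pos (mem_insert_self _ _), if_neg he, if_pos h, zero_add]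
        · have h2 : s(x, y) ≠ s(u, v) := by rw [Ne, Sym2.eq_iff]; exact h
          rw [if_neg h, add_zero]
          simp [mem_insert, h2]
      have h2 := toggle (togP A P) (togP_symm A hA P) huv
      have h3 : ((num (togP A P) + num (tog (togP A P) u v) : ℕ) : ZMod 4) = 0 := by
        rw [ZMod.natCast_eq_zero_iff]
        exact Nat.dvd_of_mod_eq_zero h2
      push_cast at h3
      rw [h1, card_insert_of_notMem he, pow_succ]
      have h4 : (num (tog (togP A P) u v) : ZMod 4) = - num (togP A P) := by
        linear_combination h3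
      rw [h4, ih']; ring

/-- the three nonzero vectors -/
def vec (i : ZMod 3) : ZMod 2 × ZMod 2 := if i = 0 then (1, 0) else if i = 1 then (0, 1) else (1, 1)

/-- the determinant -/
def dt (x y : ZMod 2 × ZMod 2) : ZMod 2 := x.1 * y.2 + x.2 * y.1

lemma dt_vec (i j : ZMod 3) : dt (vec i) (vec j) = ne i j := by
  revert i j; decide

lemma dt_sum {ι : Type*} (s : Finset ι) (f : ι → ZMod 2 × ZMod 2) (y : ZMod 2 × ZMod 2) :
    dt (∑ i ∈ s, f i) y = ∑ i ∈ s, dt (f i) y := by
  unfold dt
  rw [Prod.fst_sum, Prod.snd_sum, Finset.sum_mul, Finset.sum_mul, ← Finset.sum_add_distrib]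

lemma dt_zero_iff (x : ZMod 2 × ZMod 2) (i : ZMod 3) :
    dt x (vec i) = 0 ↔ x = 0 ∨ x = vec i := by
  revert x i; decide

/-- complement the edges inside `B` -/
def comp (A : R → R → ZMod 2) (B : Finset R) : R → R → ZMod 2 := fun x y =>
  A x y + if x ∈ B ∧ y ∈ B ∧ x ≠ y then 1 else 0

lemma comp_eq (A : R → R → ZMod 2) (B : Finset R) :
    comp A B = togP A (B.offDiag.image Sym2.mk.uncurry) := by
  funext x y
  unfold comp togP
  congr 2
  rw [eq_iff_iff, mem_image]
  constructor
  · rintro ⟨h1, h2, h3⟩
    exact ⟨(x, y), by rw [mem_offDiag]; exact ⟨h1, h2, h3⟩, rfl⟩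
  · rintro ⟨⟨a, b⟩, h, h2⟩
    rw [mem_offDiag] at h
    have h3 : s(a, b) = s(x, y) := h2
    rw [Sym2.eq_iff] at h3
    rcases h3 with ⟨rfl, rfl⟩ | ⟨rfl, rfl⟩
    · exact ⟨h.1, h.2.1, h.2.2⟩
    · exact ⟨h.2.1, h.1, h.2.2.symm⟩

lemma dd_comp (A : R → R → ZMod 2) (B : Finset R) (c : R → ZMod 3)
    (hc : ∑ b ∈ B, vec (c b) = 0) (u : R) : dd (comp A B) c u = dd A c u := by
  unfold dd comp
  simp only [add_mul, Finset.sum_add_distrib]
  have h : ∑ v, (if u ∈ B ∧ v ∈ B ∧ u ≠ v then (1 : ZMod 2) else 0) * ne (c v) (c u) = 0 := by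
    by_cases hu : u ∈ B
    · have h2 : ∀ v, (if u ∈ B ∧ v ∈ B ∧ u ≠ v then (1 : ZMod 2) else 0) * ne (c v) (c u) =
          if v ∈ B then dt (vec (c v)) (vec (c u)) else 0 := by
        intro v
        by_cases hv : v ∈ B
        · by_cases huv : u = v
          · subst huv; simp [dt_vec, ne_self]
          · simp [hu, hv, huv, dt_vec]
        · simp [hv]
      rw [Finset.sum_congr rfl fun v _ => h2 v, Finset.sum_ite_mem, Finset.univ_inter, ← dt_sum, hc]
      simp [dt]
    · simp [hu]
  rw [h, add_zero]

theorem exists_val (A : R → R → ZMod 2) (hA : ∀ x y, A x y = A y x) (B : Finset R)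
    (hB : B.card.choose 2 % 2 = 1) :
    ∃ c : R → ZMod 3, (Val A c ∨ Val (comp A B) c) ∧ ∑ b ∈ B, vec (c b) ≠ 0 := by
  by_contra hcon
  push Not at hcon
  have h1 : ∀ c, Val A c ↔ Val (comp A B) c := by
    intro c
    constructor
    · intro h u
      rw [dd_comp A B c (hcon c (Or.inl h))]; exact h u
    · intro h u
      rw [← dd_comp A B c (hcon c (Or.inr h))]; exact h u
  have h2 : num A = num (comp A B) := by
    unfold num
    congr 1
    ext c
    simp [h1]
  have h3 := num_togP A hA (B.offDiag.image Sym2.mk.uncurry) (by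
    intro e he
    obtain ⟨⟨a, b⟩, h, rfl⟩ := mem_image.1 he
    rw [mem_offDiag] at h
    simpa using h.2.2)
  rw [← comp_eq, ← h2, Sym2.card_image_offDiag,
    Odd.neg_one_pow (Nat.odd_iff.2 hB)] at h3
  have h4 : ((2 * num A : ℕ) : ZMod 4) = 0 := by
    push_cast
    linear_combination h3
  rw [ZMod.natCast_eq_zero_iff] at h4
  have h5 : ((num A : ℕ) : ZMod 2) = ((1 : ℕ) : ZMod 2) := by rw [num_odd A]; rfl
  have h6 := (ZMod.natCast_eq_natCast_iff' _ _ _).1 h5
  omega

end Pool.Agent.H34TC
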